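import Mathlib.Data.Countable.Basic
import Mathlib.Data.ZMod.Defs
import Mathlib.Computability.Partrec
import Mathlib.Order.CompletePartialOrder

-- ======== part 0: formerly Pool.Agent.MP_082264_lc.Horn
section MrgPart0

set_option autoImplicit false

namespace Pool.Agent.MP_082264_lc

open Set Function

/-- The six counters. -/
abbrev Co := Fin 6

/-- Grid points. -/
abbrev Gr := Co → ℕ

/-- Increase one counter. -/
def inc (c : Co) (v : Gr) : Gr := update v c (v c + 1)

/-- Horn rules for unary predicates on the grid. -/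
inductive Rule (ι : Type) : Type
  | base (j : ι) : Rule ι
  | up (c : Co) (i j : ι) : Rule ι
  | down (c : Co) (i j : ι) : Rule ι
  | inter (i l j : ι) : Rule ι

def Rule.Sat {ι : Type} (S : ι → Set Gr) : Rule ι → Prop
  | .base j => (fun _ => 0) ∈ S j
  | .up c i j => ∀ v ∈ S i, inc c v ∈ S j
  | .down c i j => ∀ v, inc c v ∈ S i → v ∈ S j
  | .inter i l j => S i ∩ S l ⊆ S j

def Rule.map {ι ι' : Type} (f : ι → ι') : Rule ι → Rule ι'
  | .base j => .base (f j)
  | .up c i j => .up c (f i) (f j)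
  | .down c i j => .down c (f i) (f j)
  | .inter i l j => .inter (f i) (f l) (f j)

theorem Rule.sat_map {ι ι' : Type} (f : ι → ι') (S : ι' → Set Gr) (r : Rule ι) :
    (r.map f).Sat S ↔ r.Sat (S ∘ f) := by
  cases r <;> rfl

def Model {ι : Type} (R : List (Rule ι)) (S : ι → Set Gr) : Prop := ∀ r ∈ R, r.Sat S

theorem model_map {ι ι' : Type} (f : ι → ι') (R : List (Rule ι)) (S : ι' → Set Gr) :
    Model (R.map (Rule.map f)) S ↔ Model R (S ∘ f) := by
  simp [Model, Rule.sat_map]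

theorem model_append {ι : Type} (R R' : List (Rule ι)) (S : ι → Set Gr) :
    Model (R ++ R') S ↔ Model R S ∧ Model R' S := by
  simp [Model, or_imp, forall_and]

theorem model_cons {ι : Type} (r : Rule ι) (R' : List (Rule ι)) (S : ι → Set Gr) :
    Model (r :: R') S ↔ r.Sat S ∧ Model R' S := by
  simp [Model]

theorem model_nil {ι : Type} (S : ι → Set Gr) : Model ([] : List (Rule ι)) S := by
  simp [Model]

/-- Operators computed by the least model of a finite Horn system. -/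
def DefOp (Φ : Set Gr → Set Gr) : Prop :=
  Monotone Φ ∧ ∃ (ι : Type) (_ : Countable ι) (R : List (Rule ι)) (i o : ι),
    (∀ A, ∃ S, Model R S ∧ A ⊆ S i ∧ S o ⊆ Φ A) ∧ (∀ S, Model R S → Φ (S i) ⊆ S o)

/-- Sets computed by the least model of a finite Horn system. -/
def Def (P : Set Gr) : Prop := DefOp (fun _ => P)

theorem DefOp.of_eq {Φ Ψ : Set Gr → Set Gr} (h : DefOp Φ) (e : ∀ A, Φ A = Ψ A) : DefOp Ψ :=
  (funext e : Φ = Ψ) ▸ h

theorem Def.of_eq {P Q : Set Gr} (h : Def P) (e : ∀ v, v ∈ P ↔ v ∈ Q) : Def Q :=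
  (Set.ext e : P = Q) ▸ h

theorem DefOp.id : DefOp (fun A => A) :=
  ⟨fun _ _ h => h, Unit, inferInstance, [], (), (),
    fun A => ⟨fun _ => A, model_nil _, subset_rfl, subset_rfl⟩, fun _ _ => subset_rfl⟩

theorem Def.origin : Def {fun _ => 0} := by
  refine ⟨fun _ _ _ => subset_rfl, Bool, inferInstance, [.base true], false, true,
    fun A => ⟨fun b => cond b {fun _ => 0} A, ?_, subset_rfl, subset_rfl⟩, fun S hS => ?_⟩
  · simp [Model, Rule.Sat]
  · simpa [Model, Rule.Sat] using hS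

theorem DefOp.up (c : Co) : DefOp (fun A => inc c '' A) := by
  refine ⟨fun _ _ h => image_mono h, Bool, inferInstance, [.up c false true], false, true,
    fun A => ⟨fun b => cond b (inc c '' A) A, ?_, subset_rfl, subset_rfl⟩, fun S hS => ?_⟩
  · simp only [model_cons, model_nil, Rule.Sat, and_true]
    exact fun v hv => mem_image_of_mem _ hv
  · simp only [model_cons, model_nil, Rule.Sat, and_true] at hS
    rintro _ ⟨v, hv, rfl⟩
    exact hS v hv

theorem DefOp.down (c : Co) : DefOp (fun A => inc c ⁻¹' A) := by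
  refine ⟨fun _ _ h => preimage_mono h, Bool, inferInstance, [.down c false true], false, true,
    fun A => ⟨fun b => cond b (inc c ⁻¹' A) A, ?_, subset_rfl, subset_rfl⟩, fun S hS => ?_⟩
  · simp only [model_cons, model_nil, Rule.Sat, and_true]
    exact fun v hv => hv
  · simp only [model_cons, model_nil, Rule.Sat, and_true] at hS
    exact fun v hv => hS v hv

theorem DefOp.cyl (c : Co) : DefOp (fun A => {v | ∃ t, update v c t ∈ A}) := by
  refine ⟨fun _ _ h v ⟨t, ht⟩ => ⟨t, h ht⟩, Bool, inferInstance,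
    [.inter false false true, .up c true true, .down c true true], false, true,
    fun A => ⟨fun b => cond b {v | ∃ t, update v c t ∈ A} A, ?_, subset_rfl, subset_rfl⟩,
    fun S hS => ?_⟩
  · simp only [model_cons, model_nil, Rule.Sat, and_true, cond, inc]
    refine ⟨fun v hv => ⟨v c, by simpa using hv.1⟩, ?_, ?_⟩
    · rintro v ⟨t, ht⟩
      exact ⟨t, by simpa using ht⟩
    · rintro v ⟨t, ht⟩
      exact ⟨t, by simpa using ht⟩
  · simp only [model_cons, model_nil, Rule.Sat, and_true, inter_self] at hS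
    obtain ⟨h1, h2, h3⟩ := hS
    rintro v ⟨t, ht⟩
    have key : ∀ s, update v c s ∈ S true ↔ update v c 0 ∈ S true := by
      intro s
      induction s with
      | zero => rfl
      | succ s ih =>
        rw [← ih]
        have : inc c (update v c s) = update v c (s + 1) := by simp [inc]
        rw [← this]
        exact ⟨h3 _, h2 _⟩
    have := (key (v c)).2 ((key t).1 (h1 ht))
    simpa using this

theorem DefOp.comp {Φ Ψ : Set Gr → Set Gr} (hΨ : DefOp Ψ) (hΦ : DefOp Φ) :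
    DefOp (fun A => Ψ (Φ A)) := by
  obtain ⟨m₁, ι₁, c₁, R₁, i₁, o₁, e₁, s₁⟩ := hΦ
  obtain ⟨m₂, ι₂, c₂, R₂, i₂, o₂, e₂, s₂⟩ := hΨ
  refine ⟨m₂.comp m₁, ι₁ ⊕ ι₂, inferInstance,
    .inter (.inl o₁) (.inl o₁) (.inr i₂) :: (R₁.map (Rule.map .inl) ++ R₂.map (Rule.map .inr)),
    .inl i₁, .inr o₂, fun A => ?_, fun S hS => ?_⟩
  · obtain ⟨S₁, h₁, h₁', h₁''⟩ := e₁ A
    obtain ⟨S₂, h₂, h₂', h₂''⟩ := e₂ (Φ A)
    refine ⟨Sum.elim S₁ S₂, ?_, h₁', h₂''⟩
    rw [model_cons, model_append, model_map, model_map]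
    exact ⟨fun v hv => h₂' (h₁'' hv.1), h₁, h₂⟩
  · rw [model_cons, model_append, model_map, model_map] at hS
    obtain ⟨h0, h₁, h₂⟩ := hS
    exact (m₂ ((s₁ _ h₁).trans fun v hv => h0 ⟨hv, hv⟩)).trans (s₂ _ h₂)

theorem DefOp.inter {Φ Ψ : Set Gr → Set Gr} (hΦ : DefOp Φ) (hΨ : DefOp Ψ) :
    DefOp (fun A => Φ A ∩ Ψ A) := by
  obtain ⟨m₁, ι₁, c₁, R₁, i₁, o₁, e₁, s₁⟩ := hΦ
  obtain ⟨m₂, ι₂, c₂, R₂, i₂, o₂, e₂, s₂⟩ := hΨ
  refine ⟨fun _ _ h => inter_subset_inter (m₁ h) (m₂ h), (ι₁ ⊕ ι₂) ⊕ Bool, inferInstance,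
    .inter (.inr false) (.inr false) (.inl (.inl i₁)) ::
    .inter (.inr false) (.inr false) (.inl (.inr i₂)) ::
    .inter (.inl (.inl o₁)) (.inl (.inr o₂)) (.inr true) ::
    (R₁.map (Rule.map (.inl ∘ .inl)) ++ R₂.map (Rule.map (.inl ∘ .inr))),
    .inr false, .inr true, fun A => ?_, fun S hS => ?_⟩
  · obtain ⟨S₁, h₁, h₁', h₁''⟩ := e₁ A
    obtain ⟨S₂, h₂, h₂', h₂''⟩ := e₂ A
    refine ⟨Sum.elim (Sum.elim S₁ S₂) (fun b => cond b (Φ A ∩ Ψ A) A), ?_, subset_rfl, subset_rfl⟩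
    rw [model_cons, model_cons, model_cons, model_append, model_map, model_map]
    exact ⟨fun v hv => h₁' hv.1, fun v hv => h₂' hv.1, fun v hv => ⟨h₁'' hv.1, h₂'' hv.2⟩, h₁, h₂⟩
  · rw [model_cons, model_cons, model_cons, model_append, model_map, model_map] at hS
    obtain ⟨h0, h0', h0'', h₁, h₂⟩ := hS
    intro v hv
    exact h0'' ⟨s₁ _ h₁ (m₁ (fun v hv => h0 ⟨hv, hv⟩) hv.1),
      s₂ _ h₂ (m₂ (fun v hv => h0' ⟨hv, hv⟩) hv.2)⟩

theorem DefOp.union {Φ Ψ : Set Gr → Set Gr} (hΦ : DefOp Φ) (hΨ : DefOp Ψ) :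
    DefOp (fun A => Φ A ∪ Ψ A) := by
  obtain ⟨m₁, ι₁, c₁, R₁, i₁, o₁, e₁, s₁⟩ := hΦ
  obtain ⟨m₂, ι₂, c₂, R₂, i₂, o₂, e₂, s₂⟩ := hΨ
  refine ⟨fun _ _ h => union_subset_union (m₁ h) (m₂ h), (ι₁ ⊕ ι₂) ⊕ Bool, inferInstance,
    .inter (.inr false) (.inr false) (.inl (.inl i₁)) ::
    .inter (.inr false) (.inr false) (.inl (.inr i₂)) ::
    .inter (.inl (.inl o₁)) (.inl (.inl o₁)) (.inr true) ::
    .inter (.inl (.inr o₂)) (.inl (.inr o₂)) (.inr true) ::
    (R₁.map (Rule.map (.inl ∘ .inl)) ++ R₂.map (Rule.map (.inl ∘ .inr))),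
    .inr false, .inr true, fun A => ?_, fun S hS => ?_⟩
  · obtain ⟨S₁, h₁, h₁', h₁''⟩ := e₁ A
    obtain ⟨S₂, h₂, h₂', h₂''⟩ := e₂ A
    refine ⟨Sum.elim (Sum.elim S₁ S₂) (fun b => cond b (Φ A ∪ Ψ A) A), ?_, subset_rfl, subset_rfl⟩
    rw [model_cons, model_cons, model_cons, model_cons, model_append, model_map, model_map]
    exact ⟨fun v hv => h₁' hv.1, fun v hv => h₂' hv.1, fun v hv => Or.inl (h₁'' hv.1),
      fun v hv => Or.inr (h₂'' hv.1), h₁, h₂⟩
  · rw [model_cons, model_cons, model_cons, model_cons, model_append, model_map, model_map] at hS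
    obtain ⟨h0, h0', h3, h4, h₁, h₂⟩ := hS
    rintro v (hv | hv)
    · have := s₁ _ h₁ (m₁ (fun v hv => h0 ⟨hv, hv⟩) hv)
      exact h3 ⟨this, this⟩
    · have := s₂ _ h₂ (m₂ (fun v hv => h0' ⟨hv, hv⟩) hv)
      exact h4 ⟨this, this⟩

theorem DefOp.lfp {Φ : Set Gr → Set Gr} (hΦ : DefOp Φ) {P : Set Gr} (h₁ : Φ P ⊆ P)
    (h₂ : ∀ A, Φ A ⊆ A → P ⊆ A) : Def P := by
  obtain ⟨m, ι, c, R, i, o, e, s⟩ := hΦ
  refine ⟨fun _ _ _ => subset_rfl, ι ⊕ Unit, inferInstance,
    .inter (.inl o) (.inl o) (.inl i) :: R.map (Rule.map .inl), .inr (), .inl o,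
    fun A => ?_, fun S hS => ?_⟩
  · obtain ⟨S, h, h', h''⟩ := e P
    refine ⟨Sum.elim S (fun _ => A), ?_, subset_rfl, h''.trans h₁⟩
    rw [model_cons, model_map]
    exact ⟨fun v hv => h' (h₁ (h'' hv.1)), h⟩
  · rw [model_cons, model_map] at hS
    obtain ⟨h0, h⟩ := hS
    have h3 : P ⊆ S (.inl i) := h₂ _ ((s _ h).trans fun v hv => h0 ⟨hv, hv⟩)
    exact (h₂ _ (m h₁)).trans ((m h3).trans (s _ h))

theorem Def.and {P Q : Set Gr} (hP : Def P) (hQ : Def Q) : Def (P ∩ Q) := DefOp.inter hP hQ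

theorem Def.or {P Q : Set Gr} (hP : Def P) (hQ : Def Q) : Def (P ∪ Q) := DefOp.union hP hQ

theorem Def.ex {P : Set Gr} (c : Co) (hP : Def P) : Def {v | ∃ t, update v c t ∈ P} :=
  (DefOp.cyl c).comp hP

theorem Def.up {P : Set Gr} (c : Co) (hP : Def P) : Def (inc c '' P) :=
  (DefOp.up c).comp hP

theorem mem_inc {c : Co} {A : Set Gr} {v : Gr} :
    v ∈ inc c '' A ↔ ∃ t, v c = t + 1 ∧ update v c t ∈ A := by
  constructor
  · rintro ⟨u, hu, rfl⟩
    exact ⟨u c, by simp [inc], by simpa [inc] using hu⟩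
  · rintro ⟨t, ht, hv⟩
    refine ⟨_, hv, ?_⟩
    simp [inc, ← ht]

theorem Def.zeroOff (L : List Co) : Def {v | ∀ c ∉ L, v c = 0} := by
  induction L with
  | nil => exact Def.origin.of_eq (fun v => by simp [funext_iff])
  | cons c L ih =>
    refine (ih.ex c).of_eq fun v => ⟨?_, fun h => ⟨0, fun d hd => ?_⟩⟩
    · rintro ⟨t, ht⟩ d hd
      simp only [List.mem_cons, not_or] at hd
      simpa [update_of_ne hd.1] using ht d hd.2
    · by_cases hdc : d = c
      · simp [hdc]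
      · simpa [update_of_ne hdc] using h d (by simp [hdc, hd])

theorem Def.zero (c : Co) : Def {v | v c = 0} :=
  (Def.zeroOff ((List.finRange 6).filter (· ≠ c))).of_eq fun v => by simp

end Pool.Agent.MP_082264_lc

end MrgPart0

-- ======== part 1: formerly Pool.Agent.MP_082264_lc.Graphs
section MrgPart1

set_option autoImplicit false

namespace Pool.Agent.MP_082264_lc

open Set Function

def G2 (R : ℕ → ℕ → Prop) : Prop := ∀ a b : Co, a ≠ b → Def {v | R (v a) (v b)}

def G3 (R : ℕ → ℕ → ℕ → Prop) : Prop :=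
  ∀ a b c : Co, a ≠ b → a ≠ c → b ≠ c → Def {v | R (v a) (v b) (v c)}

def G4 (R : ℕ → ℕ → ℕ → ℕ → Prop) : Prop :=
  ∀ a b c d : Co, a ≠ b → a ≠ c → a ≠ d → b ≠ c → b ≠ d → c ≠ d →
    Def {v | R (v a) (v b) (v c) (v d)}

theorem fresh2 (a b : Co) : ∃ c, c ≠ a ∧ c ≠ b := by revert a b; decide

theorem fresh3 (a b c : Co) : ∃ d, d ≠ a ∧ d ≠ b ∧ d ≠ c := by revert a b c; decide

theorem fresh4 (a b c d : Co) : ∃ e, e ≠ a ∧ e ≠ b ∧ e ≠ c ∧ e ≠ d := by
  revert a b c d; decide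

theorem G2.of_eq {R R' : ℕ → ℕ → Prop} (h : G2 R) (e : ∀ x y, R x y ↔ R' x y) : G2 R' :=
  fun a b hab => (h a b hab).of_eq fun _ => e _ _

theorem G3.of_eq {R R' : ℕ → ℕ → ℕ → Prop} (h : G3 R) (e : ∀ x y z, R x y z ↔ R' x y z) :
    G3 R' :=
  fun a b c h1 h2 h3 => (h a b c h1 h2 h3).of_eq fun _ => e _ _ _

theorem G3.ex {R : ℕ → ℕ → ℕ → Prop} (h : G3 R) : G2 (fun x y => ∃ z, R x y z) := by
  intro a b hab
  obtain ⟨c, h1, h2⟩ := fresh2 a b
  exact ((h a b c hab h1.symm h2.symm).ex c).of_eq fun v => by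
    simp [update_of_ne h1.symm, update_of_ne h2.symm]

theorem G4.ex {R : ℕ → ℕ → ℕ → ℕ → Prop} (h : G4 R) : G3 (fun x y z => ∃ t, R x y z t) := by
  intro a b c hab hac hbc
  obtain ⟨d, h1, h2, h3⟩ := fresh3 a b c
  exact ((h a b c d hab hac h1.symm hbc h2.symm h3.symm).ex d).of_eq fun v => by
    simp [update_of_ne h1.symm, update_of_ne h2.symm, update_of_ne h3.symm]

theorem g_eq : G2 (fun x y => x = y) := by
  intro a b hab
  refine (DefOp.union ((Def.zero a).and (Def.zero b))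
    ((DefOp.up a).comp (DefOp.up b))).lfp ?_ ?_
  · rintro v (⟨h1, h2⟩ | h)
    · exact h1.trans h2.symm
    · simp only [mem_inc, mem_ofPred_eq] at h
      obtain ⟨t, ht, s, hs, h⟩ := h
      simp [update_of_ne hab, update_of_ne hab.symm] at hs h
      simp only [mem_ofPred_eq]
      omega
  · intro A hA
    have key : ∀ n, ∀ v : Gr, v a = n → v b = n → v ∈ A := by
      intro n
      induction n with
      | zero => exact fun v h1 h2 => hA (Or.inl ⟨h1, h2⟩)
      | succ n ih =>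
        intro v h1 h2
        refine hA (Or.inr ?_)
        simp only [mem_inc]
        exact ⟨n, h1, n, by simp [update_of_ne hab.symm, h2],
          ih _ (by simp [update_of_ne hab]) (by simp)⟩
    exact fun v hv => key _ v hv rfl

theorem g_succ : G2 (fun x y => y = x + 1) := by
  intro a b hab
  refine ((g_eq a b hab).up b).of_eq fun v => ?_
  simp only [mem_inc, mem_ofPred_eq, update_of_ne hab, update_self]
  constructor
  · rintro ⟨t, h1, h2⟩; omega
  · intro h; exact ⟨v a, h, rfl⟩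

/-- Relations defined by recursion on the middle argument. -/
def Rec (B : ℕ → ℕ → Prop) (T : ℕ → ℕ → ℕ → ℕ → Prop) (x : ℕ) : ℕ → ℕ → Prop
  | 0, z => B x z
  | y + 1, z' => ∃ z, Rec B T x y z ∧ T x y z z'

theorem g_rec {B : ℕ → ℕ → Prop} {T : ℕ → ℕ → ℕ → ℕ → Prop} (hB : G2 B) (hT : G4 T) :
    G3 (Rec B T) := by
  intro a b c hab hac hbc
  obtain ⟨d, h1, h2, h3⟩ := fresh3 a b c
  have hstep : DefOp (fun A => inc b '' {v | ∃ t, update v d t ∈
      ({w | ∃ s, update w c s ∈ (A ∩ {u | T (u a) (u b) (u c) (u d)})} ∩ {w | w c = w d})}) :=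
    (DefOp.up b).comp ((DefOp.cyl d).comp (DefOp.inter ((DefOp.cyl c).comp
      (DefOp.inter DefOp.id (hT a b c d hab hac h1.symm hbc h2.symm h3.symm)))
      (g_eq c d h3.symm)))
  refine (DefOp.union ((Def.zero b).and (hB a c hac)) hstep).lfp ?_ ?_
  · rintro v (⟨h, h'⟩ | h)
    · simp only [mem_ofPred_eq] at h h' ⊢
      rw [h]; exact h'
    · simp only [mem_inc, mem_ofPred_eq, mem_inter_iff] at h ⊢
      obtain ⟨y, hy, t, ⟨s, hs, hT'⟩, ht⟩ := h
      simp [update_of_ne hab, update_of_ne hac, update_of_ne hbc, update_of_ne hbc.symm,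
        update_of_ne h1.symm, update_of_ne h2.symm, update_of_ne h3.symm, update_of_ne h3]
        at hs hT' ht
      rw [hy]
      exact ⟨s, hs, ht ▸ hT'⟩
  · intro A hA
    have key : ∀ n, ∀ v : Gr, v b = n → Rec B T (v a) n (v c) → v ∈ A := by
      intro n
      induction n with
      | zero => exact fun v h1 h2 => hA (Or.inl ⟨h1, h2⟩)
      | succ n ih =>
        rintro v hv ⟨z, hz, hz'⟩
        refine hA (Or.inr ?_)
        simp only [mem_inc, mem_ofPred_eq, mem_inter_iff]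
        refine ⟨n, hv, v c, ⟨z, ih _ ?_ ?_, ?_⟩, ?_⟩ <;>
        simp [update_of_ne hab, update_of_ne hac, update_of_ne hbc, update_of_ne hbc.symm,
          update_of_ne h1.symm, update_of_ne h2.symm, update_of_ne h3.symm, update_of_ne h3,
          hz, hz']
    exact fun v hv => key _ v rfl hv

theorem g_add : G3 (fun x y z => z = x + y) := by
  refine (g_rec (T := fun _ _ z z' => z' = z + 1) g_eq
    (fun a b c d _ _ _ _ _ h => g_succ c d h)).of_eq fun x y => ?_
  induction y with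
  | zero => intro z; simp [Rec, eq_comm]
  | succ y ih => intro z; simp [Rec, ih, Nat.add_assoc]

theorem g_mul : G3 (fun x y z => z = x * y) := by
  refine (g_rec (B := fun _ z => z = 0) (T := fun x _ z z' => z' = z + x)
    (fun a b _ => Def.zero b)
    (fun a b c d _ h1 h2 _ _ h3 => g_add c a d h1.symm h3 h2)).of_eq fun x y => ?_
  induction y with
  | zero => intro z; simp [Rec]
  | succ y ih => intro z; simp [Rec, ih, Nat.mul_succ]

theorem g_le : G2 (fun x y => x ≤ y) := by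
  refine (G3.ex (R := fun x y z => y = x + z)
    (fun a b c h1 h2 h3 => g_add a c b h2 h1 h3.symm)).of_eq fun x y => ?_
  exact ⟨fun ⟨z, h⟩ => by omega, fun h => ⟨y - x, by omega⟩⟩

theorem g_lt : G2 (fun x y => x < y) := by
  refine (G3.ex (R := fun x y z => z = x + 1 ∧ z ≤ y)
    (fun a b c h1 h2 h3 => (g_succ a c h2).and (g_le c b h3.symm))).of_eq fun x y => ?_
  exact ⟨fun ⟨z, h⟩ => by omega, fun h => ⟨x + 1, rfl, h⟩⟩

theorem g_sq : G2 (fun x y => y = x * x) := by
  refine (G3.ex (R := fun x y z => x = z ∧ y = x * z)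
    (fun a b c h1 h2 h3 => (g_eq a c h2).and (g_mul a c b h2 h1 h3.symm))).of_eq fun x y => ?_
  simp

theorem g_sqadd : G3 (fun x y z => z = x * x + y) := by
  refine (G4.ex (R := fun x y z t => t = x * x ∧ z = t + y)
    (fun a b c d h1 h2 h3 h4 h5 h6 => (g_sq a d h3).and
      (g_add d b c h5.symm h6.symm h4))).of_eq fun x y z => ?_
  simp

theorem g_pair : G3 (fun x y z => z = Nat.pair x y) := by
  have h2 : G3 (fun x y z => z = x * x + (x + y)) := by
    refine (G4.ex (R := fun x y z t => t = x + y ∧ z = x * x + t)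
      (fun a b c d h1 h2 h3 h4 h5 h6 => (g_add a b d h1 h3 h5).and
        (g_sqadd a d c h3 h2 h6.symm))).of_eq fun x y z => ?_
    simp
  refine G3.of_eq (R := fun x y z => (x < y ∧ z = y * y + x) ∨ (y ≤ x ∧ z = x * x + (x + y)))
    (fun a b c h1 h3 h4 => ((g_lt a b h1).and (g_sqadd b a c h1.symm h4 h3)).or
      ((g_le b a h1.symm).and (h2 a b c h1 h3 h4))) fun x y z => ?_
  unfold Nat.pair
  split_ifs with h
  · simp [h, not_le.2 h]
  · simp [h, not_lt.1 h, Nat.add_assoc]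

theorem g_app {R : ℕ → ℕ → Prop} (h : G2 R) : G3 (fun x y z => R (Nat.pair x y) z) := by
  refine (G4.ex (R := fun x y z t => t = Nat.pair x y ∧ R t z)
    (fun a b c d h1 h2 h3 h4 h5 h6 => (g_pair a b d h1 h3 h5).and (h d c h6.symm))).of_eq
    fun x y z => ?_
  simp

theorem g_partrec {f : ℕ →. ℕ} (hf : Nat.Partrec f) : G2 (fun x y => y ∈ f x) := by
  induction hf with
  | zero =>
    exact G2.of_eq (R := fun _ y => y = 0) (fun a b _ => Def.zero b) fun x y => by
      simp [pure, PFun.pure]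
  | succ => exact g_succ.of_eq fun x y => by simp
  | left =>
    refine (G3.ex (R := fun x y z => x = Nat.pair y z)
      (fun a b c h1 h2 h3 => g_pair b c a h3 h1.symm h2.symm)).of_eq fun x y => ?_
    simp only [PFun.coe_val, Part.mem_some_iff]
    constructor
    · rintro ⟨z, rfl⟩; simp
    · rintro rfl; exact ⟨x.unpair.2, by simp⟩
  | right =>
    refine (G3.ex (R := fun x y z => x = Nat.pair z y)
      (fun a b c h1 h2 h3 => g_pair c b a h3.symm h2.symm h1.symm)).of_eq fun x y => ?_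
    simp only [PFun.coe_val, Part.mem_some_iff]
    constructor
    · rintro ⟨z, rfl⟩; simp
    · rintro rfl; exact ⟨x.unpair.1, by simp⟩
  | @pair f g _ _ ihf ihg =>
    refine (G3.ex (G4.ex (R := fun x y u w => u ∈ f x ∧ w ∈ g x ∧ y = Nat.pair u w)
      (fun a b c d h1 h2 h3 h4 h5 h6 => (ihf a c h2).and ((ihg a d h3).and
        (g_pair c d b h6 h4.symm h5.symm))))).of_eq fun x y => ?_
    simp [Seq.seq, eq_comm]
  | @comp f g _ _ ihf ihg =>
    refine (G3.ex (R := fun x y z => z ∈ g x ∧ y ∈ f z)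
      (fun a b c h1 h2 h3 => (ihg a c h2).and (ihf c b h3.symm))).of_eq fun x y => ?_
    simp
  | @prec f g _ _ ihf ihg =>
    have hT : G4 (fun x y z z' => z' ∈ g (Nat.pair x (Nat.pair y z))) := by
      intro a b c d h1 h2 h3 h4 h5 h6
      obtain ⟨e, e1, e2, e3, e4⟩ := fresh4 a b c d
      refine (((g_pair b c e h4 e2.symm e3.symm).and
        (g_app ihg a e d e1.symm h3 e4)).ex e).of_eq fun v => ?_
      simp [update_of_ne e1.symm, update_of_ne e2.symm, update_of_ne e3.symm,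
        update_of_ne e4.symm]
    have hR := g_rec ihf hT
    refine (G3.ex (G4.ex (R := fun x y u w => x = Nat.pair u w ∧
        Rec (fun x y => y ∈ f x) (fun x y z z' => z' ∈ g (Nat.pair x (Nat.pair y z))) u w y)
      (fun a b c d h1 h2 h3 h4 h5 h6 => (g_pair c d a h6 h2.symm h3.symm).and
        (hR c d b h6 h4.symm h5.symm)))).of_eq fun x y => ?_
    have key : ∀ u w y, Rec (fun x y => y ∈ f x)
        (fun x y z z' => z' ∈ g (Nat.pair x (Nat.pair y z))) u w y ↔
        y ∈ (Nat.rec (f u) (fun y IH => do let i ← IH; g (Nat.pair u (Nat.pair y i))) w :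
          Part ℕ) := by
      intro u w
      induction w with
      | zero => intro y; simp [Rec]
      | succ w ih => intro y; simp [Rec, ih]
    constructor
    · rintro ⟨u, w, rfl, h⟩
      simpa [Nat.unpaired, key] using h
    · intro h
      exact ⟨x.unpair.1, x.unpair.2, by simp, (key _ _ _).2 h⟩
  | @rfind f _ ih =>
    have hpos : G2 (fun x y => ∃ k, k + 1 ∈ f (Nat.pair x y)) := by
      refine (G3.ex (G4.ex (R := fun x y z t => t = z + 1 ∧ t ∈ f (Nat.pair x y))
        (fun a b c d h1 h2 h3 h4 h5 h6 => (g_succ c d h6).and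
          (g_app ih a b d h1 h3 h5)))).of_eq fun x y => ?_
      simp
    have hzero : G2 (fun x y => 0 ∈ f (Nat.pair x y)) := by
      refine (G3.ex (R := fun x y z => z = 0 ∧ z ∈ f (Nat.pair x y))
        (fun a b c h1 h2 h3 => (Def.zero c).and (g_app ih a b c h1 h2 h3))).of_eq fun x y => ?_
      simp
    have hR := g_rec (B := fun _ z => z = 0)
      (T := fun x y _ z' => z' = 0 ∧ ∃ k, k + 1 ∈ f (Nat.pair x y)) (fun a b _ => Def.zero b)
      (fun a b c d h1 _ _ _ _ _ => (Def.zero d).and (hpos a b h1))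
    have key : ∀ x y z, Rec (fun _ z => z = 0)
        (fun x y _ z' => z' = 0 ∧ ∃ k, k + 1 ∈ f (Nat.pair x y)) x y z ↔
        z = 0 ∧ ∀ m < y, ∃ k, k + 1 ∈ f (Nat.pair x m) := by
      intro x y
      induction y with
      | zero => intro z; simp [Rec]
      | succ y ih =>
        intro z
        simp only [Rec, ih, Nat.forall_lt_succ_right]
        constructor
        · rintro ⟨_, ⟨-, h1⟩, h2, h3⟩; exact ⟨h2, h1, h3⟩
        · rintro ⟨h2, h1, h3⟩; exact ⟨0, ⟨rfl, h1⟩, h2, h3⟩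
    refine G2.of_eq (R := fun x y => 0 ∈ f (Nat.pair x y) ∧ ∃ z, Rec (fun _ z => z = 0)
        (fun x y _ z' => z' = 0 ∧ ∃ k, k + 1 ∈ f (Nat.pair x y)) x y z)
      (fun a b h => (hzero a b h).and (hR.ex a b h)) fun x y => ?_
    simp only [key, Nat.mem_rfind, Part.map_eq_map, Part.mem_map_iff, decide_eq_true_eq,
      decide_eq_false_iff_not, exists_eq_right, exists_eq_left, exists_and_right, true_and]
    refine and_congr_right fun _ => ⟨fun h m hm => ?_, fun h m hm => ?_⟩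
    · obtain ⟨k, hk⟩ := h m hm
      exact ⟨k + 1, hk, by omega⟩
    · obtain ⟨k, hk, hk'⟩ := h hm
      exact ⟨k - 1, by rwa [Nat.sub_add_cancel (by omega)]⟩

/-- The domain of a recursive function, read on counter `0`, is the least model of a Horn system. -/
theorem exists_system {f : ℕ →. ℕ} (hf : Nat.Partrec f) :
    ∃ (ι : Type) (_ : Countable ι) (R : List (Rule ι)) (o : ι),
      (∃ S, Model R S ∧ ∀ v ∈ S o, (f (v 0)).Dom) ∧
      (∀ S, Model R S → ∀ v : Gr, (f (v 0)).Dom → v ∈ S o) := by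
  have h : Def {v | (f (v 0)).Dom} :=
    ((g_partrec hf 0 1 (by decide)).ex 1).of_eq fun v => by
      simp [Part.dom_iff_mem, update_of_ne (show (0 : Co) ≠ 1 by decide)]
  obtain ⟨-, ι, c, R, i, o, e, s⟩ := h
  obtain ⟨S, h1, -, h2⟩ := e ∅
  exact ⟨ι, c, R, o, ⟨S, h1, h2⟩, s⟩

end Pool.Agent.MP_082264_lc

end MrgPart1

-- marker of a merged file
example : 731051 + 745235 = 731051 + 745235 := rfl
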