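import Mathlib.Analysis.InnerProductSpace.PiL2
import Mathlib.Algebra.Order.Star.Real
import Mathlib.Analysis.LocallyConvex.Separation
import Mathlib.Analysis.Normed.Affine.AddTorsorBases
import Mathlib.Analysis.Convex.Between
import Mathlib.Analysis.Convex.Radon
import Mathlib.Combinatorics.SimpleGraph.Basic
import Mathlib.RingTheory.PiTensorProduct
import Mathlib.RingTheory.TotallySplit

set_option autoImplicit false

namespace Pool.Agent.MP_082264_lc

open Set Function

abbrev E := EuclideanSpace ℝ (Fin 3)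

theorem affineIndependent_of_facets {ι : Type} (p : ι → E) (F : ι → Set E)
    (hF : ∀ i, Convex ℝ (F i)) (hp : ∀ i j, j ≠ i → p j ∈ F i) (h0 : ∀ x, ¬ ∀ i, x ∈ F i) :
    AffineIndependent ℝ p := by
  by_contra h
  obtain ⟨I, x, hx, hx'⟩ := Convex.radon_partition h
  refine h0 x fun i => ?_
  by_cases hi : i ∈ I
  · refine convexHull_min ?_ (hF i) hx'
    rintro _ ⟨j, hj, rfl⟩
    exact hp i j (fun e => hj (e ▸ hi))
  · refine convexHull_min ?_ (hF i) hx
    rintro _ ⟨j, hj, rfl⟩
    exact hp i j (fun e => hi (e ▸ hj))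

theorem interior_nonempty_of_tetra (p : Fin 4 → E) (hp : AffineIndependent ℝ p) {A : Set E}
    (hA : Convex ℝ A) (h : ∀ k, p k ∈ A) : (interior A).Nonempty := by
  rw [hA.interior_nonempty_iff_affineSpan_eq_top, eq_top_iff,
    ← hp.affineSpan_eq_top_iff_card_eq_finrank_add_one.2 (by simp)]
  exact affineSpan_mono ℝ (range_subset_iff.2 h)

theorem le_of_lt_interior {A : Set E} (hA : Convex ℝ A) (hne : (interior A).Nonempty)
    (f : StrongDual ℝ E) (u : ℝ) (h : ∀ a ∈ interior A, f a < u) : ∀ a ∈ A, f a ≤ u := by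
  intro a ha
  have h1 : a ∈ closure (interior A) := by
    rw [hA.closure_interior_eq_closure_of_nonempty_interior hne]
    exact subset_closure ha
  exact closure_minimal (fun x hx => (h x hx).le) (isClosed_le f.continuous continuous_const) h1

theorem exists_symm_small {A : Set E} {m : E} (hm : m ∈ interior A) (v : E) :
    ∃ ε : ℝ, 0 < ε ∧ ε ≤ 1 ∧ m + ε • v ∈ A ∧ m - ε • v ∈ A := by
  have h1 : ∀ᶠ ε : ℝ in nhds 0, m + ε • v ∈ A := by
    have : ContinuousAt (fun ε : ℝ => m + ε • v) 0 := by fun_prop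
    exact this.eventually_mem (by simpa using mem_interior_iff_mem_nhds.1 hm)
  have h2 : ∀ᶠ ε : ℝ in nhds 0, m - ε • v ∈ A := by
    have : ContinuousAt (fun ε : ℝ => m - ε • v) 0 := by fun_prop
    exact this.eventually_mem (by simpa using mem_interior_iff_mem_nhds.1 hm)
  have h3 : ∀ᶠ ε : ℝ in nhds 0, ε < 1 := eventually_lt_nhds one_pos
  obtain ⟨ε, hε, h⟩ := ((((h1.and h2).and h3).filter_mono nhdsWithin_le_nhds).and
    (self_mem_nhdsWithin (s := Ioi (0 : ℝ)))).exists
  exact ⟨ε, h, hε.2.le, hε.1.1, hε.1.2⟩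

theorem collinear_of_gadget {X1 X2 X3 : Set E} (c1 : Convex ℝ X1) (c2 : Convex ℝ X2)
    (c3 : Convex ℝ X3) (h1 : X1 ⊆ X2 ∪ X3) (h2 : X2 ⊆ X1 ∪ X3)
    (h0 : ∀ x, x ∈ X1 → x ∈ X2 → x ∈ X3 → False)
    (hA : (interior (X1 ∩ X2)).Nonempty) (hB : (interior (X1 ∩ X3)).Nonempty) :
    Collinear ℝ (X2 ∩ X3) := by
  rcases (X2 ∩ X3).eq_empty_or_nonempty with he | ⟨c₀, hc₀⟩
  · rw [he]; exact collinear_empty _ _
  obtain ⟨f, u, hf, hf'⟩ := geometric_hahn_banach_open (c1.inter c2).interior isOpen_interior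
    (c1.inter c3) (disjoint_left.2 fun x hx hx' =>
      h0 x hx'.1 (interior_subset hx).2 hx'.2)
  have hfA := le_of_lt_interior (c1.inter c2) hA f u hf
  obtain ⟨g, u', hg, hg'⟩ := geometric_hahn_banach_open c1.interior isOpen_interior
    (c2.inter c3) (disjoint_left.2 fun x hx hx' => h0 x (interior_subset hx) hx'.1 hx'.2)
  have hg1 := le_of_lt_interior c1 (hA.mono (interior_mono inter_subset_left)) g u' hg
  obtain ⟨a, ha⟩ := hA
  obtain ⟨b, hb⟩ := hB
  have hfa := hf a ha
  have hfb := hf' b (interior_subset hb)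
  obtain ⟨m, hm, hfm⟩ : ∃ m ∈ interior X1, f m = u := by
    have hd : 0 < f b - f a := by linarith
    refine ⟨((f b - u) / (f b - f a)) • a + ((u - f a) / (f b - f a)) • b,
      c1.interior (interior_mono inter_subset_left ha) (interior_mono inter_subset_left hb)
        (div_nonneg (by linarith) hd.le) (div_nonneg (by linarith) hd.le) (by field_simp; ring), ?_⟩
    simp only [map_add, map_smul, smul_eq_mul]
    field_simp
    ring
  have hfC : ∀ c ∈ X2 ∩ X3, f c = u := by
    intro c hc
    obtain ⟨ε, hε, hε1, hp, hq⟩ := exists_symm_small hm (c - m)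
    have hseg : m + ε • (c - m) =
        ((1 - ε) / (1 + ε)) • (m - ε • (c - m)) + ((2 * ε) / (1 + ε)) • c := by
      have : (1 + ε) ≠ 0 := by positivity
      match_scalars <;> field_simp <;> ring
    have e1 : f (m + ε • (c - m)) = u + ε * (f c - u) := by simp [hfm]
    have e2 : f (m - ε • (c - m)) = u - ε * (f c - u) := by simp [hfm]
    have hz : ε * (f c - u) = 0 := by
      rcases h1 hq with h | h
      · have h' : m + ε • (c - m) ∈ X2 := by
          rw [hseg]
          exact c2 h hc.1 (div_nonneg (by linarith) (by positivity)) (by positivity)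
            (by field_simp; ring)
        have := hfA _ ⟨hp, h'⟩
        have := hfA _ ⟨hq, h⟩
        linarith
      · have h' : m + ε • (c - m) ∈ X3 := by
          rw [hseg]
          exact c3 h hc.2 (div_nonneg (by linarith) (by positivity)) (by positivity)
            (by field_simp; ring)
        have := hf' _ ⟨hp, h'⟩
        have := hf' _ ⟨hq, h⟩
        linarith
    have := (mul_eq_zero.1 hz).resolve_left hε.ne'
    linarith
  have hgC : ∀ c ∈ X2 ∩ X3, g c = u' := by
    intro c hc
    by_contra hne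
    have hlt : u' < g c := lt_of_le_of_ne (hg' c hc) (Ne.symm hne)
    have hga := hg a (interior_mono inter_subset_left ha)
    have hd : 0 < g c - g a := by linarith
    set s := (g c - u') / (2 * (g c - g a)) with hs
    have hs0 : 0 < s := div_pos (by linarith) (by positivity)
    have hs1 : s ≤ 1 := by rw [hs, div_le_one (by positivity)]; linarith
    have hp : (1 - s) • c + s • a ∈ X2 :=
      c2 hc.1 (interior_subset ha).2 (by linarith) hs0.le (by ring)
    have e1 : g ((1 - s) • c + s • a) = (g c + u') / 2 := by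
      simp only [map_add, map_smul, smul_eq_mul, hs]
      field_simp
      ring
    rcases h2 hp with h | h
    · have := hg1 _ h
      linarith
    · have e2 := hfC _ ⟨hp, h⟩
      simp only [map_add, map_smul, smul_eq_mul, hfC c hc] at e2
      nlinarith
  let L : E →ₗ[ℝ] ℝ × ℝ := (f : E →ₗ[ℝ] ℝ).prod (g : E →ₗ[ℝ] ℝ)
  have hL : LinearMap.range L = ⊤ := by
    rw [LinearMap.range_eq_top]
    rintro ⟨x, y⟩
    have hgm := hg m hm
    have d1 : u - f a ≠ 0 := by linarith [sub_pos.2 hfa]
    have d2 : u' - g m ≠ 0 := by linarith [sub_pos.2 hgm]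
    refine ⟨(x / (u - f a)) • (m - a) +
      ((y - x / (u - f a) * (g m - g a)) / (u' - g m)) • (c₀ - m), ?_⟩
    have hLv : ∀ v, L v = (f v, g v) := fun v => rfl
    rw [hLv]
    simp only [map_add, map_smul, map_sub, smul_eq_mul, hfm, hfC c₀ hc₀, hgC c₀ hc₀,
      Prod.mk.injEq]
    constructor <;> field_simp <;> ring
  have hk : Module.finrank ℝ (LinearMap.ker L) = 1 := by
    have := L.finrank_range_add_finrank_ker
    rw [hL] at this
    simp at this
    omega
  rw [collinear_iff_finrank_le_one, ← hk]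
  refine Submodule.finrank_mono ?_
  rw [vectorSpan_def, Submodule.span_le]
  rintro _ ⟨x, hx, y, hy, rfl⟩
  simp [L, hfC x hx, hfC y hy, hgC x hx, hgC y hy]

theorem between_of_gadget {C U U' : Set E} (hC : Collinear ℝ C) (cU : Convex ℝ U)
    (cU' : Convex ℝ U') {x y z : E} (hx : x ∈ C) (hy : y ∈ C) (hz : z ∈ C)
    (xU : x ∈ U) (yU : y ∈ U) (zU : z ∉ U) (yU' : y ∈ U') (zU' : z ∈ U') (xU' : x ∉ U') :
    ∃ γ : ℝ, 0 < γ ∧ γ < 1 ∧ y = x + γ • (z - x) := by
  have h : Collinear ℝ ({x, y, z} : Set E) := hC.subset (by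
    rintro _ (rfl | rfl | rfl) <;> assumption)
  rcases h.wbtw_or_wbtw_or_wbtw with h | h | h
  · obtain ⟨γ, ⟨h0, h1⟩, rfl⟩ := h
    refine ⟨γ, lt_of_le_of_ne h0 ?_, lt_of_le_of_ne h1 ?_, ?_⟩
    · rintro rfl
      exact xU' (by simpa using yU')
    · rintro rfl
      exact zU (by simpa using yU)
    · simp [AffineMap.lineMap_apply, add_comm]
  · exact absurd (cU.mem_of_wbtw h yU xU) zU
  · exact absurd (cU'.mem_of_wbtw h zU' yU') xU'

/-- The point with homogeneous barycentric weights `w`. -/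
noncomputable def bp (V : Fin 3 → E) (w : Fin 3 → ℝ) : E :=
  (w 0 + w 1 + w 2)⁻¹ • (w 0 • V 0 + w 1 • V 1 + w 2 • V 2)

theorem bp_mem {D : Set E} (hD : Convex ℝ D) {V : Fin 3 → E} (hV : ∀ i, V i ∈ D)
    {w : Fin 3 → ℝ} (hw : ∀ i, 0 < w i) : bp V w ∈ D := by
  have := hD.centerMass_mem (t := Finset.univ) (w := w) (z := V) (fun i _ => (hw i).le)
    (Finset.sum_pos (fun i _ => hw i) Finset.univ_nonempty) (fun i _ => hV i)
  simpa [Finset.centerMass, Fin.sum_univ_three, bp] using this

theorem bp_smul (V : Fin 3 → E) (w : Fin 3 → ℝ) {s : ℝ} (hs : s ≠ 0) :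
    bp V (fun i => s * w i) = bp V w := by
  simp only [bp, ← mul_add, mul_inv]
  match_scalars <;> field_simp

theorem bp_proj {X : Set E} (hX : Convex ℝ X) {V V' : Fin 3 → E} {a : E} {α : Fin 3 → ℝ}
    (hα : ∀ i, 0 < α i) (hα' : ∀ i, α i ≤ 1) (hV : ∀ i, V' i = a + α i • (V i - a))
    {w : Fin 3 → ℝ} (hw : ∀ i, 0 < w i) (ha : a ∈ X) (hp : bp V w ∈ X) :
    bp V' (fun i => w i / α i) ∈ X := by
  have h0 := hw 0; have h1 := hw 1; have h2 := hw 2
  have a0 := hα 0; have a1 := hα 1; have a2 := hα 2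
  have hle : ∀ i, w i ≤ w i / α i := fun i => by
    rw [le_div_iff₀ (hα i)]; nlinarith [hw i, hα' i]
  set s := w 0 + w 1 + w 2 with hs
  set s' := w 0 / α 0 + w 1 / α 1 + w 2 / α 2 with hs'
  have hs0 : 0 < s := by positivity
  have hs'0 : 0 < s' := by positivity
  have hss : s / s' ≤ 1 := by
    rw [div_le_one hs'0]; linarith [hle 0, hle 1, hle 2]
  have e : bp V' (fun i => w i / α i) = (1 - s / s') • a + (s / s') • bp V w := by
    have e0 : (1 - s / s') = s'⁻¹ * (s' - s) := by field_simp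
    rw [e0]
    simp only [bp, hV, ← hs, ← hs']
    match_scalars
    · rw [hs, hs']; field_simp; ring
    all_goals field_simp
  rw [e]
  exact hX ha hp (by linarith) (by positivity) (by ring)

theorem homology {V : Fin 3 → E} {a a' v : E} (i : Fin 3) {γ γ' : ℝ} (hγ : 0 < γ) (hγ1 : γ < 1)
    (hγ' : 0 < γ') (hγ1' : γ' < 1) (e : v = a + γ • (V i - a)) (e' : V i = v + γ' • (a' - v)) :
    ∃ μ : ℝ, 0 < μ ∧ ∀ (X Y D' : Set E), Convex ℝ X → Convex ℝ Y → Convex ℝ D' → a ∈ X → a' ∈ Y →
      v ∈ D' → (∀ j, j ≠ i → V j ∈ D') → X ∩ D' ⊆ Y → ∀ w : Fin 3 → ℝ, (∀ j, 0 < w j) →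
      bp V w ∈ X → bp V (update w i (μ * w i)) ∈ Y := by
  have hd : 0 < 1 - γ' := by linarith
  refine ⟨1 / (γ * (1 - γ')), by positivity,
    fun X Y D' hX hY hD' ha ha' hv hV hsub w hw hp => ?_⟩
  have hα : ∀ j, 0 < update (fun _ => (1 : ℝ)) i γ j := fun j => by
    by_cases h : j = i <;> simp [h, hγ]
  have hβ : ∀ j, 0 < update (fun _ => (1 : ℝ)) i (1 - γ') j := fun j => by
    by_cases h : j = i <;> simp [h, hγ1']
  have h1 := bp_proj hX (V := V) (V' := update V i v) (α := update (fun _ => 1) i γ) hα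
    (fun j => by by_cases h : j = i <;> simp [h, hγ1.le])
    (fun j => by by_cases h : j = i <;> simp [h, e]) hw ha hp
  have hw' : ∀ j, 0 < w j / update (fun _ => (1 : ℝ)) i γ j := fun j => div_pos (hw j) (hα j)
  have h2 := bp_mem hD' (V := update V i v)
    (fun j => by by_cases h : j = i <;> simp [h, hv, hV j]) hw'
  have h3 := bp_proj hY (V := update V i v) (V' := V) (α := update (fun _ => 1) i (1 - γ')) hβ
    (fun j => by by_cases h : j = i <;> simp [h, hγ'.le])
    (fun j => by
      by_cases h : j = i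
      · subst h
        simp only [update_self]
        rw [e']
        module
      · simp [h]) hw' ha' (hsub ⟨h1, h2⟩)
  convert h3 using 2
  funext j
  by_cases h : j = i
  · subst h
    simp only [update_self]
    field_simp
  · simp [h]

theorem bp_on_line {V : Fin 3 → E} (hV : AffineIndependent ℝ V) {C : Set E} (hC : Collinear ℝ C)
    (i : Fin 3) {w w' : Fin 3 → ℝ} (hw : ∀ j, 0 < w j) (hw' : ∀ j, 0 < w' j)
    (hi : V i ∈ C) (h : bp V w ∈ C) (h' : bp V w' ∈ C) (j k : Fin 3) (hj : j ≠ i) (hk : k ≠ i) :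
    w' j * w k = w' k * w j := by
  obtain ⟨d, hd⟩ := (collinear_iff_of_mem hi).1 hC
  obtain ⟨r, hr⟩ := hd _ h
  obtain ⟨r', hr'⟩ := hd _ h'
  have h0 := hw 0; have h1 := hw 1; have h2 := hw 2
  have h0' := hw' 0; have h1' := hw' 1; have h2' := hw' 2
  set s := w 0 + w 1 + w 2 with hs
  set s' := w' 0 + w' 1 + w' 2 with hs'
  have hs0 : s ≠ 0 := by positivity
  have hs'0 : s' ≠ 0 := by positivity
  have key : ∀ x y : ℝ, x * r + y * r' = 0 → ∀ l, l ≠ i → x * w l / s + y * w' l / s' = 0 := by
    intro x y hxy l hl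
    have hsum := (affineIndependent_iff.1 hV) Finset.univ
      (fun l => x * w l / s + y * w' l / s' - (if l = i then x + y else 0)) (by
        simp only [Finset.sum_sub_distrib, Finset.sum_ite_eq', Finset.mem_univ, if_true,
          Fin.sum_univ_three]
        field_simp
        rw [hs, hs']
        ring) (by
        have e1 : x • bp V w + y • bp V w' - (x + y) • V i = 0 := by
          rw [hr, hr']
          simp only [vadd_eq_add]
          have : x • (r • d + V i) + y • (r' • d + V i) - (x + y) • V i = (x * r + y * r') • d := by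
            module
          rw [this, hxy, zero_smul]
        simp only [sub_smul, Finset.sum_sub_distrib, ite_smul, zero_smul, Finset.sum_ite_eq',
          Finset.mem_univ, if_true, Fin.sum_univ_three]
        rw [← e1]
        simp only [bp, ← hs, ← hs']
        match_scalars <;> field_simp) l (Finset.mem_univ l)
    simpa [hl] using hsum
  have hr0 : r ≠ 0 := by
    intro hr0
    have h4 := key 1 0 (by simp [hr0]) j hj
    have hj' := hw j
    have h5 : 0 < 1 * w j / s := by positivity
    rw [zero_mul, zero_div, add_zero] at h4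
    linarith
  have e1 := key r' (-r) (by ring) j hj
  have e2 := key r' (-r) (by ring) k hk
  field_simp at e1 e2
  have : r * s * (w' j * w k - w' k * w j) = 0 := by linear_combination w j * e2 - w k * e1
  have h3 := (mul_eq_zero.1 this).resolve_left (mul_ne_zero hr0 hs0)
  linarith

end Pool.Agent.MP_082264_lc
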