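import Mathlib.Order.BourbakiWitt
import Mathlib.Tactic.DeriveCountable
import Pool.Agent.MP_082264_lc.Graphs
import Pool.Agent.MP_082264_lc.Gadgets

set_option autoImplicit false

namespace Pool.Agent.MP_082264_lc

open Set Function

/-- Named points of the configuration. -/
inductive Pt : Type
  | V (i : Fin 3) | a (i : Fin 3) | a' (i : Fin 3) | w (i : Fin 3) (c : Co) | m
  | tet (e : Bool) (k : Fin 4)
  deriving Fintype, Countable

/-- Named lines of the configuration. -/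
inductive Ln : Type
  | vert (i : Fin 3) | pq | rm | po
  deriving Fintype, Countable

/-- The convex sets of the rigid frame. -/
inductive Fix : Type
  | pt (y : Pt) | L (j : Fin 3) (l : Ln) | FT (e : Bool) (k : Fin 4) | FV (i : Fin 3) | D
  | D' (i : Fin 3) (c : Co) | U (j : Fin 8)
  deriving Countable

/-- The kinds of convex sets attached to a predicate. -/
inductive Tag : Type
  | K | X1 (c : Co) | Y1 (c : Co) | X2 (i : Fin 3) (c : Co) | Y2 (i : Fin 3) (c : Co)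
  deriving Countable

/-- Predicates: those of the Horn system and a few built in ones. -/
inductive Pr (ι : Type) : Type
  | user (i : ι) | grid | org | mid (c : Co) | fin (c : Co)
  deriving Countable

/-- Names of all convex sets. -/
inductive Name (ι : Type) : Type
  | fix (a : Fix) | aux (t : Tag) (π : Pr ι)
  deriving Countable

abbrev Pat (N : Type) := List N × List N

/-- No point lies in all sets of the first list and outside all sets of the second list. -/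
def Forb {N : Type} (X : N → Set E) (p : Pat N) : Prop :=
  ∀ x, (∀ a ∈ p.1, x ∈ X a) → ∃ b ∈ p.2, x ∈ X b

variable {ι : Type}

abbrev P (y : Pt) : Name ι := .fix (.pt y)
abbrev K (π : Pr ι) : Name ι := .aux .K π
abbrev L (j : Fin 3) (l : Ln) : Name ι := .fix (.L j l)
abbrev U (j : Fin 8) : Name ι := .fix (.U j)

def gad (i : Fin 3) (c : Co) (s d : Pr ι) (g : Name ι) : List (Pat (Name ι)) :=
  [([K s], [.aux (.X1 c) s]), ([P (.a 2)], [.aux (.X1 c) s]),
    ([.aux (.X1 c) s, .fix (.D' 2 c)], [.aux (.Y1 c) s]), ([P (.a' 2)], [.aux (.Y1 c) s]),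
    ([.aux (.Y1 c) s, .fix .D], [.aux (.X2 i c) s]), ([P (.a i)], [.aux (.X2 i c) s]),
    ([.aux (.X2 i c) s, .fix (.D' i c)], [.aux (.Y2 i c) s]), ([P (.a' i)], [.aux (.Y2 i c) s]),
    ([.aux (.Y2 i c) s, .fix .D, g], [K d])]

def Gad (X : Name ι → Set E) (i : Fin 3) (c : Co) (s d : Pr ι) (g : Name ι) : Prop :=
  X (K s) ⊆ X (.aux (.X1 c) s) ∧ X (P (.a 2)) ⊆ X (.aux (.X1 c) s) ∧
  X (.aux (.X1 c) s) ∩ X (.fix (.D' 2 c)) ⊆ X (.aux (.Y1 c) s) ∧
  X (P (.a' 2)) ⊆ X (.aux (.Y1 c) s) ∧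
  X (.aux (.Y1 c) s) ∩ X (.fix .D) ⊆ X (.aux (.X2 i c) s) ∧
  X (P (.a i)) ⊆ X (.aux (.X2 i c) s) ∧
  X (.aux (.X2 i c) s) ∩ X (.fix (.D' i c)) ⊆ X (.aux (.Y2 i c) s) ∧
  X (P (.a' i)) ⊆ X (.aux (.Y2 i c) s) ∧
  X (.aux (.Y2 i c) s) ∩ (X (.fix .D) ∩ X g) ⊆ X (K d)

theorem gad_iff (X : Name ι → Set E) (i : Fin 3) (c : Co) (s d : Pr ι) (g : Name ι) :
    (∀ p ∈ gad i c s d g, Forb X p) ↔ Gad X i c s d g := by
  simp [gad, Gad, Forb, subset_def]

def rulePats : Rule ι → List (Pat (Name ι))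
  | .base j => [([K .org], [K (.user j)])]
  | .up c i j => gad 0 c (.user i) (.user j) (.fix .D)
  | .down c i j => gad 1 c (.user i) (.user j) (K .grid)
  | .inter i l j => [([K (.user i), K (.user l)], [K (.user j)])]

def RuleCons (X : Name ι → Set E) : Rule ι → Prop
  | .base j => X (K .org) ⊆ X (K (.user j))
  | .up c i j => Gad X 0 c (.user i) (.user j) (.fix .D)
  | .down c i j => Gad X 1 c (.user i) (.user j) (K .grid)
  | .inter i l j => X (K (.user i)) ∩ X (K (.user l)) ⊆ X (K (.user j))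

theorem rule_iff (X : Name ι → Set E) (r : Rule ι) :
    (∀ p ∈ rulePats r, Forb X p) ↔ RuleCons X r := by
  cases r with
  | base j => simp [rulePats, RuleCons, Forb, subset_def]
  | up c i j => exact gad_iff _ _ _ _ _ _
  | down c i j => exact gad_iff _ _ _ _ _ _
  | inter i l j => simp [rulePats, RuleCons, Forb, subset_def]

/-- The named set lies on the named line. -/
def OnL (X : Name ι → Set E) (n : Name ι) (l : Ln) : Prop :=
  X n ⊆ X (L 1 l) ∧ X n ⊆ X (L 2 l)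

/-- Order constraints for three named points. -/
def Btw (X : Name ι → Set E) (x y z : Name ι) (j j' : Fin 8) : Prop :=
  X x ⊆ X (U j) ∧ X y ⊆ X (U j) ∧ Disjoint (X z) (X (U j)) ∧
  X y ⊆ X (U j') ∧ X z ⊆ X (U j') ∧ Disjoint (X x) (X (U j'))

/-- The constraints of the rigid frame. -/
structure FixCons (X : Name ι → Set E) : Prop where
  cov1 : ∀ l, X (L 0 l) ⊆ X (L 1 l) ∪ X (L 2 l)
  cov2 : ∀ l, X (L 1 l) ⊆ X (L 0 l) ∪ X (L 2 l)
  tri : ∀ l x, x ∈ X (L 0 l) → x ∈ X (L 1 l) → x ∈ X (L 2 l) → False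
  tet0 : ∀ l e k, X (P (.tet e k)) ⊆ X (L 0 l)
  tet1 : ∀ l k, X (P (.tet false k)) ⊆ X (L 1 l)
  tet2 : ∀ l k, X (P (.tet true k)) ⊆ X (L 2 l)
  fac : ∀ e k j, j ≠ k → X (P (.tet e j)) ⊆ X (.fix (.FT e k))
  facE : ∀ e x, ¬ ∀ k, x ∈ X (.fix (.FT e k))
  fv : ∀ i j, j ≠ i → X (P (.V j)) ⊆ X (.fix (.FV i))
  fvE : ∀ x, ¬ ∀ i, x ∈ X (.fix (.FV i))
  on1 : ∀ i, OnL X (P (.a i)) (.vert i)
  on2 : ∀ i, OnL X (P (.a' i)) (.vert i)
  on3 : ∀ i, OnL X (P (.V i)) (.vert i)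
  on4 : ∀ i c, OnL X (P (.w i c)) (.vert i)
  on5 : OnL X (P (.V 0)) .pq
  on6 : OnL X (P .m) .pq
  on7 : OnL X (P (.V 1)) .pq
  on8 : OnL X (P (.V 2)) .rm
  on9 : OnL X (P .m) .rm
  on10 : OnL X (K .org) .rm
  on11 : OnL X (P (.V 0)) .po
  on12 : OnL X (K .org) .po
  on13 : ∀ c, OnL X (K (.fin c)) .rm
  on14 : ∀ c, OnL X (K (.fin c)) .po
  bt1 : ∀ i c, Btw X (P (.a i)) (P (.w i c)) (P (.V i)) 0 1
  bt2 : ∀ i c, Btw X (P (.w i c)) (P (.V i)) (P (.a' i)) 2 3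
  bt3 : Btw X (P (.V 0)) (P .m) (P (.V 1)) 4 5
  bt4 : Btw X (P (.V 2)) (K .org) (P .m) 6 7
  pl1 : ∀ i, X (P (.V i)) ⊆ X (.fix .D)
  pl2 : ∀ i c, X (P (.w i c)) ⊆ X (.fix (.D' i c))
  pl3 : ∀ i c j, j ≠ i → X (P (.V j)) ⊆ X (.fix (.D' i c))
  gr0 : X (K .org) ⊆ X (K .grid)
  gr1 : ∀ c, Gad X 0 c .grid .grid (.fix .D)
  ch1 : ∀ c, Gad X 0 c .org (.mid c) (.fix .D)
  ch2 : ∀ c, Gad X 1 c (.mid c) (.fin c) (.fix .D)

theorem sound (R : List (Rule ι)) (z : ι) (X : Name ι → Set E) (hc : ∀ n, Convex ℝ (X n))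
    (h : FixCons X) (hne : ∀ y, (X (P y)).Nonempty) (ho : (X (K .org)).Nonempty)
    (hR : ∀ r ∈ R, RuleCons X r) (hz : Disjoint (X (K .org)) (X (K (.user z)))) :
    ∃ S, Model R S ∧ (fun _ => 0) ∉ S z := by
  choose y hy using hne
  obtain ⟨o, ho⟩ := ho
  have htet : ∀ e, AffineIndependent ℝ (fun k => y (.tet e k)) := fun e =>
    affineIndependent_of_facets _ (fun k => X (.fix (.FT e k))) (fun _ => hc _)
      (fun k j hj => h.fac e k j hj (hy _)) (h.facE e)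
  have hcol : ∀ l, Collinear ℝ (X (L 1 l) ∩ X (L 2 l)) := fun l =>
    collinear_of_gadget (hc _) (hc _) (hc _) (h.cov1 l) (h.cov2 l) (h.tri l)
      (interior_nonempty_of_tetra _ (htet false) ((hc _).inter (hc _))
        fun k => ⟨h.tet0 l _ k (hy _), h.tet1 l k (hy _)⟩)
      (interior_nonempty_of_tetra _ (htet true) ((hc _).inter (hc _))
        fun k => ⟨h.tet0 l _ k (hy _), h.tet2 l k (hy _)⟩)
  have hbt : ∀ {n₁ n₂ n₃ : Name ι} {j j' : Fin 8} {l : Ln} {x₁ x₂ x₃ : E},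
      Btw X n₁ n₂ n₃ j j' → OnL X n₁ l → OnL X n₂ l → OnL X n₃ l → x₁ ∈ X n₁ → x₂ ∈ X n₂ →
      x₃ ∈ X n₃ → ∃ γ : ℝ, 0 < γ ∧ γ < 1 ∧ x₂ = x₁ + γ • (x₃ - x₁) := by
    rintro n₁ n₂ n₃ j j' l x₁ x₂ x₃ ⟨b1, b2, b3, b4, b5, b6⟩ o1 o2 o3 h1 h2 h3
    exact between_of_gadget (hcol l) (hc (U j)) (hc (U j')) ⟨o1.1 h1, o1.2 h1⟩ ⟨o2.1 h2, o2.2 h2⟩
      ⟨o3.1 h3, o3.2 h3⟩ (b1 h1) (b2 h2) (disjoint_left.1 b3 h3) (b4 h2) (b5 h3)
      (disjoint_left.1 b6 h1)
  set V : Fin 3 → E := fun i => y (.V i) with hV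
  have hVi : AffineIndependent ℝ V :=
    affineIndependent_of_facets _ (fun i => X (.fix (.FV i))) (fun _ => hc _)
      (fun i j hj => h.fv i j hj (hy _)) h.fvE
  have hhom : ∀ i c, ∃ μ : ℝ, 0 < μ ∧ ∀ (A B : Set E), Convex ℝ A → Convex ℝ B →
      y (.a i) ∈ A → y (.a' i) ∈ B → A ∩ X (.fix (.D' i c)) ⊆ B → ∀ w : Fin 3 → ℝ,
      (∀ j, 0 < w j) → bp V w ∈ A → bp V (update w i (μ * w i)) ∈ B := by
    intro i c
    obtain ⟨γ, g1, g2, e⟩ := hbt (h.bt1 i c) (h.on1 i) (h.on4 i c) (h.on3 i) (hy _) (hy _) (hy _)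
    obtain ⟨γ', g1', g2', e'⟩ :=
      hbt (h.bt2 i c) (h.on4 i c) (h.on3 i) (h.on2 i) (hy _) (hy _) (hy _)
    obtain ⟨μ, hμ, H⟩ := homology (V := V) i g1 g2 g1' g2' e e'
    exact ⟨μ, hμ, fun A B hA hB ha ha' hs => H A B _ hA hB (hc _) ha ha' (h.pl2 i c (hy _))
      (fun j hj => h.pl3 i c j hj (hy _)) hs⟩
  choose μ hμ hhom using hhom
  have hD : ∀ w : Fin 3 → ℝ, (∀ j, 0 < w j) → bp V w ∈ X (.fix .D) := fun w hw =>
    bp_mem (hc _) (fun i => h.pl1 i (hy _)) hw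
  let T : Fin 3 → Co → (Fin 3 → ℝ) → Fin 3 → ℝ := fun i c w =>
    update (update w 2 (μ 2 c * w 2)) i (μ i c * update w 2 (μ 2 c * w 2) i)
  have hupd : ∀ (w : Fin 3 → ℝ) (i : Fin 3) (s : ℝ), 0 < s → (∀ j, 0 < w j) →
      ∀ j, 0 < update w i (s * w i) j := by
    intro w i s hs hw j
    by_cases hj : j = i
    · subst hj; simpa using mul_pos hs (hw j)
    · simpa [hj] using hw j
  have hT : ∀ i c w, (∀ j, 0 < w j) → ∀ j, 0 < T i c w j := fun i c w hw =>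
    hupd _ _ _ (hμ i c) (hupd _ _ _ (hμ 2 c) hw)
  have hgad : ∀ {i c s d g}, Gad X i c s d g → ∀ w : Fin 3 → ℝ, (∀ j, 0 < w j) →
      bp V w ∈ X (K s) → bp V (T i c w) ∈ X g → bp V (T i c w) ∈ X (K d) := by
    rintro i c s d g ⟨g1, g2, g3, g4, g5, g6, g7, g8, g9⟩ w hw h1 h2
    have h3 := hhom 2 c _ _ (hc _) (hc _) (g2 (hy _)) (g4 (hy _)) g3 w hw (g1 h1)
    have hw' := hupd _ 2 _ (hμ 2 c) hw
    have h4 := hhom i c _ _ (hc _) (hc _) (g6 (hy _)) (g8 (hy _)) g7 _ hw' (g5 ⟨h3, hD _ hw'⟩)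
    exact g9 ⟨h4, hD _ (hT i c w hw), h2⟩
  obtain ⟨w₀, hw₀, rfl⟩ : ∃ w₀ : Fin 3 → ℝ, (∀ j, 0 < w₀ j) ∧ o = bp V w₀ := by
    obtain ⟨s, s1, s2, e⟩ := hbt h.bt3 h.on5 h.on6 h.on7 (hy _) (hy _) (hy _)
    obtain ⟨t, t1, t2, e'⟩ := hbt h.bt4 h.on8 h.on10 h.on9 (hy _) ho (hy _)
    refine ⟨![t * (1 - s), t * s, 1 - t], ?_, ?_⟩
    · have : 0 < 1 - s := by linarith
      have : 0 < 1 - t := by linarith
      intro j
      fin_cases j
      · show 0 < t * (1 - s); positivity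
      · show 0 < t * s; positivity
      · show 0 < 1 - t; positivity
    · rw [e', e]
      have : t * (1 - s) + t * s + (1 - t) = 1 := by ring
      simp only [bp, Matrix.cons_val_zero, Matrix.cons_val_one, Matrix.cons_val, this, hV]
      module
  have hchk : ∀ c, μ 0 c = μ 1 c ∧ μ 1 c = μ 2 c * μ 2 c := by
    intro c
    have h1 := hgad (h.ch1 c) w₀ hw₀ ho (hD _ (hT _ _ _ hw₀))
    have hw := hT 1 c _ (hT 0 c _ hw₀)
    have h2 := hgad (h.ch2 c) _ (hT _ _ _ hw₀) h1 (hD _ hw)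
    have e1 := bp_on_line hVi (hcol .rm) 2 hw₀ hw ⟨h.on8.1 (hy _), h.on8.2 (hy _)⟩
      ⟨h.on10.1 ho, h.on10.2 ho⟩ ⟨(h.on13 c).1 h2, (h.on13 c).2 h2⟩ 0 1 (by decide) (by decide)
    have e2 := bp_on_line hVi (hcol .po) 0 hw₀ hw ⟨h.on11.1 (hy _), h.on11.2 (hy _)⟩
      ⟨h.on12.1 ho, h.on12.2 ho⟩ ⟨(h.on14 c).1 h2, (h.on14 c).2 h2⟩ 1 2 (by decide) (by decide)
    simp [T] at e1 e2
    have p0 := hw₀ 0; have p1 := hw₀ 1; have p2 := hw₀ 2
    constructor
    · have : (μ 0 c - μ 1 c) * (w₀ 0 * w₀ 1) = 0 := by linear_combination e1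
      have := (mul_eq_zero.1 this).resolve_right (by positivity)
      linarith
    · have : (μ 1 c - μ 2 c * μ 2 c) * (w₀ 1 * w₀ 2) = 0 := by linear_combination e2
      have := (mul_eq_zero.1 this).resolve_right (by positivity)
      linarith
  let W : Gr → Fin 3 → ℝ := fun v =>
    ![w₀ 0 * ∏ c, μ 0 c ^ v c, w₀ 1, w₀ 2 * ∏ c, μ 2 c ^ v c]
  have hW : ∀ v j, 0 < W v j := by
    intro v j
    have p0 := hw₀ 0; have p1 := hw₀ 1; have p2 := hw₀ 2
    have q0 : 0 < ∏ c, μ 0 c ^ v c := Finset.prod_pos fun c _ => pow_pos (hμ 0 c) _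
    have q2 : 0 < ∏ c, μ 2 c ^ v c := Finset.prod_pos fun c _ => pow_pos (hμ 2 c) _
    fin_cases j <;> simp [W] <;> positivity
  have hprod : ∀ (f : Co → ℝ) (c : Co) (v : Gr),
      ∏ d, f d ^ inc c v d = f c * ∏ d, f d ^ v d := by
    intro f c v
    rw [← Finset.mul_prod_erase Finset.univ _ (Finset.mem_univ c),
      ← Finset.mul_prod_erase Finset.univ (fun d => f d ^ v d) (Finset.mem_univ c)]
    have : ∏ d ∈ Finset.univ.erase c, f d ^ inc c v d = ∏ d ∈ Finset.univ.erase c, f d ^ v d :=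
      Finset.prod_congr rfl fun d hd => by simp [inc, update_of_ne (Finset.ne_of_mem_erase hd)]
    rw [this]
    simp only [inc, update_self]
    ring
  have hW0 : W (fun _ => 0) = w₀ := by
    funext j; fin_cases j <;> simp [W]
  have hup : ∀ c v, T 0 c (W v) = W (inc c v) := by
    intro c v
    funext j
    fin_cases j <;> simp [T, W, hprod] <;> ring
  have hdown : ∀ c v, bp V (T 1 c (W (inc c v))) = bp V (W v) := by
    intro c v
    rw [← bp_smul V (W v) (hμ 1 c).ne']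
    congr 1
    funext j
    fin_cases j <;> simp [T, W, hprod, (hchk c).1]
    · ring
    · rw [(hchk c).2]; ring
  have hgrid : ∀ v, bp V (W v) ∈ X (K .grid) := by
    have key : ∀ n, ∀ v : Gr, ∑ c, v c = n → bp V (W v) ∈ X (K .grid) := by
      intro n
      induction n with
      | zero =>
        intro v hv
        obtain rfl : v = fun _ => 0 := funext fun c =>
          (Finset.sum_eq_zero_iff.1 hv) c (Finset.mem_univ c)
        rw [hW0]
        exact h.gr0 ho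
      | succ n ih =>
        intro v hv
        obtain ⟨c, -, hc'⟩ := Finset.exists_ne_zero_of_sum_ne_zero (s := Finset.univ) (f := v)
          (by omega)
        have e : v = inc c (update v c (v c - 1)) := by
          simp [inc, Nat.sub_add_cancel (Nat.pos_of_ne_zero hc')]
        have hs : ∑ d, update v c (v c - 1) d = n := by
          rw [Finset.sum_update_of_mem (Finset.mem_univ c)]
          rw [← Finset.add_sum_erase _ _ (Finset.mem_univ c), ← Finset.sdiff_singleton_eq_erase]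
            at hv
          omega
        rw [e, ← hup]
        exact hgad (h.gr1 c) _ (hW _) (ih _ hs) (hD _ (hT _ _ _ (hW _)))
    exact fun v => key _ v rfl
  refine ⟨fun j => {v | bp V (W v) ∈ X (K (.user j))}, fun r hr => ?_, fun h0 => ?_⟩
  · have hr' := hR r hr
    cases r with
    | base j =>
      show bp V (W (fun _ => 0)) ∈ X (K (.user j))
      rw [hW0]
      exact hr' ho
    | up c i j =>
      intro v hv
      show bp V (W (inc c v)) ∈ X (K (.user j))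
      rw [← hup]
      exact hgad hr' _ (hW _) hv (hD _ (hT _ _ _ (hW _)))
    | down c i j =>
      intro v hv
      show bp V (W v) ∈ X (K (.user j))
      rw [← hdown c]
      exact hgad hr' _ (hW _) hv (by rw [hdown]; exact hgrid v)
    | inter i l j => exact fun v hv => hr' hv
  · have h0' : bp V (W (fun _ => 0)) ∈ X (K (.user z)) := h0
    rw [hW0] at h0'
    exact disjoint_left.1 hz ho h0'

end Pool.Agent.MP_082264_lc
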