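import Mathlib.Algebra.Order.Ring.Star
import Mathlib.Algebra.Ring.IsFormallyReal
import Mathlib.Tactic.NormNum.Prime
import Mathlib.Computability.Halting
import Pool.Agent.MP_082264_lc.Sound
import Pool.Agent.MP_082264_lc.Graphs

-- ======== part 0: formerly Pool.Agent.MP_082264_lc.Complete
section MrgPart0

set_option autoImplicit false

namespace Pool.Agent.MP_082264_lc

open Set Function

def pr : Co → ℕ := ![2, 3, 5, 7, 11, 13]

theorem pr_prime (c : Co) : (pr c).Prime := by
  fin_cases c <;> simp [pr] <;> norm_num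

theorem pr_inj : Injective pr := by decide

def tn (v : Gr) : ℕ := ∏ c, pr c ^ v c

theorem tn_inj : Injective tn := by
  have key : ∀ v c, (tn v).factorization (pr c) = v c := by
    intro v c
    unfold tn
    rw [Nat.factorization_prod (fun d _ => pow_ne_zero _ (pr_prime d).ne_zero)]
    simp only [Finsupp.coe_finsetSum, Finset.sum_apply, Nat.Prime.factorization_pow (pr_prime _),
      Finsupp.single_apply, pr_inj.eq_iff]
    simp
  intro v w h
  funext c
  rw [← key v c, ← key w c, h]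

theorem tn_inc (c : Co) (v : Gr) : tn (inc c v) = pr c * tn v := by
  unfold tn
  rw [← Finset.mul_prod_erase Finset.univ _ (Finset.mem_univ c),
    ← Finset.mul_prod_erase Finset.univ (fun d => pr d ^ v d) (Finset.mem_univ c)]
  have : ∏ d ∈ Finset.univ.erase c, pr d ^ inc c v d = ∏ d ∈ Finset.univ.erase c, pr d ^ v d :=
    Finset.prod_congr rfl fun d hd => by simp [inc, update_of_ne (Finset.ne_of_mem_erase hd)]
  rw [this]
  simp only [inc, update_self]
  ring

theorem tn_zero : tn (fun _ => 0) = 1 := by simp [tn]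

noncomputable def lam (c : Co) : ℝ := pr c

theorem one_lt_lam (c : Co) : 1 < lam c := by
  unfold lam
  exact_mod_cast (pr_prime c).one_lt

/-- The cone over the inside of a conic together with the boundary rays marked by `S`. -/
def Cone (S : Set ℝ) (x y z : ℝ) : Prop :=
  (x = 0 ∧ y = 0 ∧ z = 0) ∨ (0 < y ∧ z ^ 2 ≤ x * y ∧ (z ^ 2 = x * y → z / y ∈ S))

/-- One boundary ray. -/
def Ray (t : ℝ) (x y z : ℝ) : Prop := 0 ≤ y ∧ x = t ^ 2 * y ∧ z = t * y

def CC (C : ℝ → ℝ → ℝ → Prop) : Prop :=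
  ∀ x y z x' y' z' a b : ℝ, 0 < a → 0 < b → C x y z → C x' y' z' →
    C (a * x + b * x') (a * y + b * y') (a * z + b * z')

theorem cc_ray (t : ℝ) : CC (Ray t) := by
  rintro x y z x' y' z' a b ha hb ⟨h1, rfl, rfl⟩ ⟨h2, rfl, rfl⟩
  exact ⟨by positivity, by ring, by ring⟩

theorem Cone.smul {S : Set ℝ} {x y z a : ℝ} (ha : 0 < a) (h : Cone S x y z) :
    Cone S (a * x) (a * y) (a * z) := by
  rcases h with ⟨rfl, rfl, rfl⟩ | ⟨h1, h2, h3⟩
  · left; simp
  · right
    refine ⟨by positivity, by nlinarith [mul_pos ha ha], fun h => ?_⟩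
    rw [mul_div_mul_left _ _ ha.ne']
    apply h3
    have : a ^ 2 * (z ^ 2 - x * y) = 0 := by linear_combination h
    have := (mul_eq_zero.1 this).resolve_left (by positivity)
    linarith

theorem Cone.add {S : Set ℝ} {x y z x' y' z' : ℝ} (h : Cone S x y z) (h' : Cone S x' y' z') :
    Cone S (x + x') (y + y') (z + z') := by
  rcases h with ⟨rfl, rfl, rfl⟩ | ⟨h1, h2, h3⟩
  · simpa using h'
  rcases h' with ⟨rfl, rfl, rfl⟩ | ⟨h1', h2', h3'⟩
  · rw [add_zero, add_zero, add_zero]
    exact Or.inr ⟨h1, h2, h3⟩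
  right
  have e : y * y' * ((x + x') * (y + y') - (z + z') ^ 2) =
      (y + y') * (y' * (x * y - z ^ 2) + y * (x' * y' - z' ^ 2)) + (z * y' - z' * y) ^ 2 := by
    ring
  have p1 : 0 ≤ y' * (x * y - z ^ 2) := mul_nonneg h1'.le (by linarith)
  have p2 : 0 ≤ y * (x' * y' - z' ^ 2) := mul_nonneg h1.le (by linarith)
  have p3 : 0 ≤ (y + y') * (y' * (x * y - z ^ 2) + y * (x' * y' - z' ^ 2)) := by positivity
  have p4 := sq_nonneg (z * y' - z' * y)
  refine ⟨by positivity, ?_, fun h => ?_⟩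
  · have : 0 ≤ y * y' * ((x + x') * (y + y') - (z + z') ^ 2) := by rw [e]; positivity
    have := nonneg_of_mul_nonneg_right this (mul_pos h1 h1') 
    linarith
  · rw [h, sub_self, mul_zero] at e
    have q1 : (z * y' - z' * y) ^ 2 = 0 := by linarith
    have q2 : (y + y') * (y' * (x * y - z ^ 2) + y * (x' * y' - z' ^ 2)) = 0 := by linarith
    have q3 := (mul_eq_zero.1 q2).resolve_left (by positivity)
    have q4 : y' * (x * y - z ^ 2) = 0 := by linarith
    have q5 := (mul_eq_zero.1 q4).resolve_left h1'.ne'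
    have q6 : z * y' - z' * y = 0 := by simpa using q1
    have : (z + z') / (y + y') = z / y := by
      field_simp
      linarith
    rw [this]
    exact h3 (by linarith)

theorem cc_cone (S : Set ℝ) : CC (Cone S) :=
  fun _ _ _ _ _ _ _ _ ha hb h h' => (h.smul ha).add (h'.smul hb)

def Aff (g : E → ℝ) : Prop :=
  ∀ (p q : E) (a b : ℝ), a + b = 1 → g (a • p + b • q) = a * g p + b * g q

theorem conv_cc {C : ℝ → ℝ → ℝ → Prop} (hC : CC C) {f g h : E → ℝ} (hf : Aff f) (hg : Aff g)
    (hh : Aff h) : Convex ℝ {p | C (f p) (g p) (h p)} := by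
  rw [convex_iff_forall_pos]
  intro p hp q hq a b ha hb hab
  simp only [mem_ofPred_eq, hf p q a b hab, hg p q a b hab, hh p q a b hab]
  exact hC _ _ _ _ _ _ _ _ ha hb hp hq

theorem conv_lt {f : E → ℝ} (hf : Aff f) : Convex ℝ {p | 0 < f p} :=
  conv_cc (C := fun x _ _ => 0 < x) (fun _ _ _ _ _ _ _ _ ha hb h h' => by positivity) hf hf hf

theorem conv_le {f : E → ℝ} (hf : Aff f) : Convex ℝ {p | 0 ≤ f p} :=
  conv_cc (C := fun x _ _ => 0 ≤ x) (fun _ _ _ _ _ _ _ _ ha hb h h' => by positivity) hf hf hf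

theorem conv_eq {f : E → ℝ} (hf : Aff f) : Convex ℝ {p | f p = 0} :=
  conv_cc (C := fun x _ _ => x = 0) (fun _ _ _ _ _ _ _ _ ha hb h h' => by simp [h, h']) hf hf hf

theorem conv_L1 {f g : E → ℝ} (hf : Aff f) (hg : Aff g) :
    Convex ℝ {p | 0 ≤ f p ∧ 0 ≤ g p ∧ (g p = 0 → f p = 0)} := by
  refine conv_cc (C := fun x y _ => 0 ≤ x ∧ 0 ≤ y ∧ (y = 0 → x = 0)) ?_ hf hg hg
  rintro x y _ x' y' _ a b ha hb ⟨h1, h2, h3⟩ ⟨h1', h2', h3'⟩
  refine ⟨by positivity, by positivity, fun h => ?_⟩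
  have e1 : y = 0 := by nlinarith [mul_nonneg ha.le h2, mul_nonneg hb.le h2']
  have e2 : y' = 0 := by nlinarith [mul_nonneg ha.le h2, mul_nonneg hb.le h2']
  simp [h3 e1, h3' e2]

theorem conv_L2 {f g : E → ℝ} (hf : Aff f) (hg : Aff g) :
    Convex ℝ {p | f p ≤ 0 ∧ 0 ≤ g p ∧ (g p = 0 ↔ f p = 0)} := by
  refine conv_cc (C := fun x y _ => x ≤ 0 ∧ 0 ≤ y ∧ (y = 0 ↔ x = 0)) ?_ hf hg hg
  rintro x y _ x' y' _ a b ha hb ⟨h1, h2, h3⟩ ⟨h1', h2', h3'⟩
  have n1 := mul_nonneg ha.le (neg_nonneg.2 h1)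
  have n2 := mul_nonneg hb.le (neg_nonneg.2 h1')
  refine ⟨by nlinarith, by positivity, fun h => ?_, fun h => ?_⟩
  · have e1 : y = 0 := by nlinarith [mul_nonneg ha.le h2, mul_nonneg hb.le h2']
    have e2 : y' = 0 := by nlinarith [mul_nonneg ha.le h2, mul_nonneg hb.le h2']
    simp [h3.1 e1, h3'.1 e2]
  · have e1 : x = 0 := by nlinarith
    have e2 : x' = 0 := by nlinarith
    simp [h3.2 e1, h3'.2 e2]

noncomputable def mu (i : Fin 3) (c : Co) : ℝ := if i = 2 then lam c else lam c ^ 2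

theorem one_lt_mu (i : Fin 3) (c : Co) : 1 < mu i c := by
  have := one_lt_lam c
  unfold mu
  split_ifs <;> nlinarith

def vx : Fin 3 → ℝ := ![0, 1, 0]
def vy : Fin 3 → ℝ := ![0, 0, 1]
def tx : Bool → ℝ := fun e => cond e 30 100
def ty : Bool → ℝ := fun e => cond e 100 30

noncomputable def pos : Pt → E
  | .V i => !₂[vx i, vy i, 0]
  | .a i => !₂[vx i, vy i, 1]
  | .a' i => !₂[vx i, vy i, -1]
  | .w i c => !₂[vx i, vy i, (mu i c - 1) / (mu i c + 1)]
  | .m => !₂[1 / 2, 0, 0]
  | .tet e k => !₂[tx e + ![0, 1, 0, 0] k, ty e + ![0, 0, 1, 0] k, 50 + ![0, 0, 0, 1] k]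

/-- Barycentric coordinates of the shadow of a point in the base plane. -/
def bc (i : Fin 3) (p : E) : ℝ := ![1 - p 0 - p 1, p 0, p 1] i

def lf : Ln → E → ℝ
  | .vert i, p => (p 0 - vx i) - (p 1 - vy i)
  | .pq, p => p 2 - p 1
  | .rm, p => 2 * p 0 + p 1 - 1 - 4 * p 2
  | .po, p => p 0 - p 1

def lg : Ln → E → ℝ
  | .vert i, p => (p 0 - vx i) + (p 1 - vy i)
  | .pq, p => p 2
  | .rm, p => p 2
  | .po, p => p 2

def ft (e : Bool) (k : Fin 4) (p : E) : ℝ :=
  ![(p 0 - tx e) + (p 1 - ty e) + (p 2 - 50) - 1, tx e - p 0, ty e - p 1, 50 - p 2] k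

noncomputable def realFix : Fix → Set E
  | .pt y => {pos y}
  | .L j l => ![{p | 0 < lg l p}, {p | 0 ≤ lf l p ∧ 0 ≤ lg l p ∧ (lg l p = 0 → lf l p = 0)},
      {p | lf l p ≤ 0 ∧ 0 ≤ lg l p ∧ (lg l p = 0 ↔ lf l p = 0)}] j
  | .FT e k => {p | 0 ≤ ft e k p}
  | .FV i => {p | 0 ≤ - bc i p}
  | .D => {p | p 2 = 0}
  | .D' i c => {p | (mu i c + 1) * p 2 - (mu i c - 1) * bc i p = 0}
  | .U j => ![{p | 0 < p 2}, {p | 0 < 1 - p 2}, {p | 0 ≤ p 2}, {p | 0 ≤ - p 2},
      {p | 0 ≤ 1 / 2 - p 0}, {p | 0 ≤ p 0 - 1 / 2}, {p | 0 ≤ p 1 - 1 / 3},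
      {p | 0 ≤ 1 / 3 - p 1}] j

noncomputable def realAux (C : ℝ → ℝ → ℝ → Prop) : Tag → Set E
  | .K => {p | p 2 = 0} ∩ {p | C (bc 0 p) (bc 1 p) (bc 2 p)}
  | .X1 _ => {p | C (bc 0 p) (bc 1 p) (bc 2 p - p 2)}
  | .Y1 c => {p | C (bc 0 p) (bc 1 p) ((bc 2 p + p 2) / lam c)}
  | .X2 i c => {p | C (bc 0 p - if i = 0 then p 2 else 0) (bc 1 p - if i = 0 then 0 else p 2)
      (bc 2 p / lam c)}
  | .Y2 i c => {p | C (if i = 0 then (bc 0 p + p 2) / lam c ^ 2 else bc 0 p)
      (if i = 0 then bc 1 p else (bc 1 p + p 2) / lam c ^ 2) (bc 2 p / lam c)}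

variable {ι : Type}

def cn (S : ι → Set Gr) : Pr ι → ℝ → ℝ → ℝ → Prop
  | .user j => Cone ((fun v => (tn v : ℝ)) '' S j)
  | .grid => Cone (range fun v => (tn v : ℝ))
  | .org => Ray 1
  | .mid c => Ray (lam c)
  | .fin _ => Ray 1

noncomputable def real (S : ι → Set Gr) : Name ι → Set E
  | .fix a => realFix a
  | .aux t π => realAux (cn S π) t

theorem cc_cn (S : ι → Set Gr) (π : Pr ι) : CC (cn S π) := by
  cases π <;> first | exact cc_cone _ | exact cc_ray _

theorem cn_zero (S : ι → Set Gr) (π : Pr ι) : cn S π 0 0 0 := by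
  cases π <;> simp [cn, Cone, Ray]

theorem aff_of (g : E → ℝ)
    (h : ∀ (p q : E) (a : ℝ), g (a • p + (1 - a) • q) = a * g p + (1 - a) * g q) : Aff g := by
  intro p q a b hab
  obtain rfl : b = 1 - a := by linarith
  exact h p q a

theorem convex_realFix (a : Fix) : Convex ℝ (realFix a) := by
  cases a with
  | pt y => exact convex_singleton _
  | L j l =>
    have hf : Aff (lf l) := aff_of _ fun p q a => by cases l <;> simp [lf] <;> ring
    have hg : Aff (lg l) := aff_of _ fun p q a => by cases l <;> simp [lg] <;> ring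
    fin_cases j
    · exact conv_lt hg
    · exact conv_L1 hf hg
    · exact conv_L2 hf hg
  | FT e k => exact conv_le (aff_of _ fun p q a => by fin_cases k <;> simp [ft] <;> ring)
  | FV i => exact conv_le (aff_of _ fun p q a => by fin_cases i <;> simp [bc] <;> ring)
  | D => exact conv_eq (aff_of _ fun p q a => by simp)
  | D' i c => exact conv_eq (aff_of _ fun p q a => by fin_cases i <;> simp [bc] <;> ring)
  | U j =>
    fin_cases j
    · exact conv_lt (aff_of _ fun p q a => by simp)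
    · exact conv_lt (aff_of _ fun p q a => by simp; ring)
    · exact conv_le (aff_of _ fun p q a => by simp)
    all_goals exact conv_le (aff_of _ fun p q a => by simp; ring)

theorem convex_realAux {C : ℝ → ℝ → ℝ → Prop} (hC : CC C) (t : Tag) : Convex ℝ (realAux C t) := by
  have h0 : Aff (bc 0) := aff_of _ fun p q a => by simp [bc]; ring
  have h1 : Aff (bc 1) := aff_of _ fun p q a => by simp [bc]
  have h2 : Aff (bc 2) := aff_of _ fun p q a => by simp [bc]
  cases t with
  | K => exact (conv_eq (aff_of _ fun p q a => by simp)).inter (conv_cc hC h0 h1 h2)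
  | X1 c => exact conv_cc hC h0 h1 (aff_of _ fun p q a => by simp [bc]; ring)
  | Y1 c => exact conv_cc hC h0 h1 (aff_of _ fun p q a => by simp [bc]; ring)
  | X2 i c =>
    refine conv_cc hC ?_ ?_ ?_ <;> refine aff_of _ fun p q a => ?_ <;>
      by_cases h : i = 0 <;> simp [bc, h] <;> ring
  | Y2 i c =>
    refine conv_cc hC ?_ ?_ ?_ <;> refine aff_of _ fun p q a => ?_ <;>
      by_cases h : i = 0 <;> simp [bc, h] <;> ring

theorem convex_real (S : ι → Set Gr) (n : Name ι) : Convex ℝ (real S n) := by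
  cases n with
  | fix a => exact convex_realFix a
  | aux t π => exact convex_realAux (cc_cn S π) t

theorem gad_real (S : ι → Set Gr) (i : Fin 3) (hi : i = 0 ∨ i = 1) (c : Co) (s d : Pr ι)
    (g : Name ι)
    (h : ∀ p : E, p 2 = 0 → p ∈ real S g →
      cn S s (if i = 0 then bc 0 p / lam c ^ 2 else bc 0 p)
        (if i = 0 then bc 1 p else bc 1 p / lam c ^ 2) (bc 2 p / lam c) →
      cn S d (bc 0 p) (bc 1 p) (bc 2 p)) : Gad (real S) i c s d g := by
  have hl := one_lt_lam c
  have hz := cn_zero S s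
  refine ⟨?_, ?_, ?_, ?_, ?_, ?_, ?_, ?_, ?_⟩
  · rintro p ⟨h1, h2⟩
    simpa [real, realAux, show p 2 = 0 from h1] using h2
  · simpa [real, realFix, realAux, pos, bc, vx, vy] using hz
  · rintro p ⟨h1, h2⟩
    simp only [real, realFix, realAux, mem_ofPred_eq, mu, if_true] at h1 h2 ⊢
    have : (bc 2 p + p 2) / lam c = bc 2 p - p 2 := by
      field_simp
      linarith
    rwa [this]
  · simpa [real, realFix, realAux, pos, bc, vx, vy] using hz
  · rintro p ⟨h1, h2⟩
    simpa [real, realAux, show p 2 = 0 from h2] using h1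
  · rcases hi with rfl | rfl <;> simpa [real, realFix, realAux, pos, bc, vx, vy] using hz
  · rintro p ⟨h1, h2⟩
    rcases hi with rfl | rfl
    · simp [real, realFix, realAux, mu] at h1 h2 ⊢
      have : (bc 0 p + p 2) / lam c ^ 2 = bc 0 p - p 2 := by
        field_simp
        linarith
      rwa [this]
    · simp [real, realFix, realAux, mu] at h1 h2 ⊢
      have : (bc 1 p + p 2) / lam c ^ 2 = bc 1 p - p 2 := by
        field_simp
        linarith
      rwa [this]
  · rcases hi with rfl | rfl <;> simpa [real, realFix, realAux, pos, bc, vx, vy] using hz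
  · rintro p ⟨h1, h2, h3⟩
    have h2' : p 2 = 0 := h2
    refine ⟨h2', h p h2' h3 ?_⟩
    simpa [real, realAux, h2'] using h1

theorem cone_up {A B : Set ℝ} {l x y z : ℝ} (hl : 1 < l) (hAB : ∀ t ∈ A, l * t ∈ B)
    (h : Cone A (x / l ^ 2) y (z / l)) : Cone B x y z := by
  have hl0 : 0 < l := by linarith
  rcases h with ⟨h1, h2, h3⟩ | ⟨h1, h2, h3⟩
  · left
    exact ⟨by simpa [hl0.ne'] using h1, h2, by simpa [hl0.ne'] using h3⟩
  · right
    refine ⟨h1, ?_, fun e => ?_⟩
    · field_simp at h2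
      exact h2
    · have := hAB _ (h3 (by field_simp; linarith))
      convert this using 1
      field_simp

theorem cone_down {A B G : Set ℝ} {l x y z : ℝ} (hl : 1 < l)
    (hAB : ∀ t ∈ G, l * t ∈ A → t ∈ B)
    (h : Cone A x (y / l ^ 2) (z / l)) (hG : Cone G x y z) : Cone B x y z := by
  have hl0 : 0 < l := by linarith
  rcases hG with hG | ⟨g1, g2, g3⟩
  · exact Or.inl hG
  rcases h with ⟨h1, h2, h3⟩ | ⟨h1, h2, h3⟩
  · exact absurd h2 (by positivity)
  · refine Or.inr ⟨g1, g2, fun e => hAB _ (g3 e) ?_⟩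
    convert h3 (by field_simp; linarith) using 1
    field_simp

theorem ray_cone {B : Set ℝ} {x y z : ℝ} (hB : (1 : ℝ) ∈ B) (h : Ray 1 x y z) : Cone B x y z := by
  obtain ⟨h1, rfl, rfl⟩ := h
  rcases h1.eq_or_lt with rfl | h1
  · left; simp
  · right
    exact ⟨h1, by nlinarith, fun _ => by simpa [h1.ne'] using hB⟩

theorem mem_org (S : ι → Set Gr) {π : Pr ι} (hπ : cn S π = Ray 1) (p : E) :
    p ∈ real S (K π) ↔ p 0 = 1 / 3 ∧ p 1 = 1 / 3 ∧ p 2 = 0 := by
  simp only [real, realAux, hπ, Ray, bc, mem_inter_iff, mem_ofPred_eq, Matrix.cons_val_zero,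
    Matrix.cons_val_one, Matrix.cons_val]
  constructor
  · rintro ⟨h1, h2, h3, h4⟩
    exact ⟨by linarith, by linarith, h1⟩
  · rintro ⟨h1, h2, h3⟩
    exact ⟨h3, by linarith, by linarith, by linarith⟩

theorem rule_real (S : ι → Set Gr) (r : Rule ι) (h : r.Sat S) : RuleCons (real S) r := by
  cases r with
  | base j =>
    rintro p ⟨h1, h2⟩
    exact ⟨h1, ray_cone ⟨_, h, by simp [tn_zero]⟩ h2⟩
  | up c i j =>
    refine gad_real S 0 (Or.inl rfl) c _ _ _ fun p _ _ hp => cone_up (one_lt_lam c) ?_ hp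
    rintro _ ⟨v, hv, rfl⟩
    exact ⟨inc c v, h v hv, by simp [tn_inc, lam]⟩
  | down c i j =>
    refine gad_real S 1 (Or.inr rfl) c _ _ _ fun p _ hg hp =>
      cone_down (one_lt_lam c) ?_ hp hg.2
    rintro _ ⟨v, rfl⟩ ⟨u, hu, e⟩
    have : u = inc c v := tn_inj (by
      rw [tn_inc]
      simp only [lam] at e
      exact_mod_cast e)
    exact ⟨v, h v (this ▸ hu), rfl⟩
  | inter i l j =>
    rintro p ⟨⟨h1, h2⟩, -, h3⟩
    refine ⟨h1, ?_⟩
    rcases h2 with h2 | ⟨a1, a2, a3⟩
    · exact Or.inl h2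
    rcases h3 with h3 | ⟨-, -, b3⟩
    · exact Or.inl h3
    refine Or.inr ⟨a1, a2, fun e => ?_⟩
    obtain ⟨u, hu, e1⟩ := a3 e
    obtain ⟨v, hv, e2⟩ := b3 e
    have : u = v := tn_inj (Nat.cast_injective (R := ℝ) (e1.trans e2.symm))
    exact ⟨u, h ⟨hu, this ▸ hv⟩, e1⟩

theorem fix_real (S : ι → Set Gr) : FixCons (real S) := by
  have ho := mem_org S (π := .org) rfl
  have hfin := fun c => mem_org S (π := .fin c) rfl
  have hmu : ∀ i c, 0 < (mu i c - 1) / (mu i c + 1) ∧ (mu i c - 1) / (mu i c + 1) < 1 := by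
    intro i c
    have := one_lt_mu i c
    exact ⟨div_pos (by linarith) (by linarith), by rw [div_lt_one (by linarith)]; linarith⟩
  constructor
  · intro l p hp
    simp [real, realFix] at hp ⊢
    rcases le_or_gt 0 (lf l p) with h | h
    · exact Or.inl ⟨h, hp.le, fun e => absurd e hp.ne'⟩
    · exact Or.inr ⟨h.le, hp.le, by simp [hp.ne', h.ne]⟩
  · intro l p hp
    simp [real, realFix] at hp ⊢
    rcases hp.2.1.eq_or_lt with h | h
    · exact Or.inr ⟨(hp.2.2 h.symm).le, hp.2.1, by simp [← h, hp.2.2 h.symm]⟩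
    · exact Or.inl h
  · intro l p h0 h1 h2
    simp [real, realFix] at h0 h1 h2
    exact h0.ne' (h2.2.2.2 (le_antisymm h2.1 h1.1))
  · intro l e k
    cases l with
    | vert i => fin_cases i <;> cases e <;> fin_cases k <;>
        simp [real, realFix, pos, lg, vx, vy, tx, ty] <;> norm_num
    | _ => cases e <;> fin_cases k <;> simp [real, realFix, pos, lg] <;> norm_num
  · intro l k
    cases l with
    | vert i => fin_cases i <;> fin_cases k <;>
        simp [real, realFix, pos, lf, lg, vx, vy, tx, ty] <;> norm_num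
    | _ => fin_cases k <;> simp [real, realFix, pos, lf, lg, tx, ty] <;> norm_num
  · intro l k
    cases l with
    | vert i => fin_cases i <;> fin_cases k <;>
        simp [real, realFix, pos, lf, lg, vx, vy, tx, ty] <;> norm_num
    | _ => fin_cases k <;> simp [real, realFix, pos, lf, lg, tx, ty] <;> norm_num
  · intro e k j hj
    fin_cases k <;> fin_cases j <;> simp [real, realFix, pos, ft] at hj ⊢
  · intro e p h
    have h0 := h 0; have h1 := h 1; have h2 := h 2; have h3 := h 3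
    simp [real, realFix, ft] at h0 h1 h2 h3
    linarith
  · intro i j hj
    fin_cases i <;> fin_cases j <;> simp [real, realFix, pos, bc, vx, vy] at hj ⊢
  · intro p h
    have h0 := h 0; have h1 := h 1; have h2 := h 2
    simp [real, realFix, bc] at h0 h1 h2
    linarith
  · intro i; simp [OnL, real, realFix, pos, lf, lg]
  · intro i; simp [OnL, real, realFix, pos, lf, lg]
  · intro i; simp [OnL, real, realFix, pos, lf, lg]
  · intro i c; simp [OnL, real, realFix, pos, lf, lg]
  · simp [OnL, real, realFix, pos, lf, lg, vy]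
  · simp [OnL, real, realFix, pos, lf, lg]
  · simp [OnL, real, realFix, pos, lf, lg, vy]
  · simp [OnL, real, realFix, pos, lf, lg, vx, vy]
  · simp [OnL, real, realFix, pos, lf, lg]
  · constructor <;> intro p hp <;> obtain ⟨h0, h1, h2⟩ := (ho p).1 hp <;>
      simp [real, realFix, lf, lg, h0, h1, h2] <;> norm_num
  · simp [OnL, real, realFix, pos, lf, lg, vx, vy]
  · constructor <;> intro p hp <;> obtain ⟨h0, h1, h2⟩ := (ho p).1 hp <;>
      simp [real, realFix, lf, lg, h0, h1, h2]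
  · intro c
    constructor <;> intro p hp <;> obtain ⟨h0, h1, h2⟩ := (hfin c p).1 hp <;>
      simp [real, realFix, lf, lg, h0, h1, h2] <;> norm_num
  · intro c
    constructor <;> intro p hp <;> obtain ⟨h0, h1, h2⟩ := (hfin c p).1 hp <;>
      simp [real, realFix, lf, lg, h0, h1, h2]
  · intro i c
    simp [Btw, real, realFix, pos, (hmu i c).1, (hmu i c).2]
  · intro i c
    simp [Btw, real, realFix, pos, (hmu i c).1, (hmu i c).1.le]
  · simp [Btw, real, realFix, pos, vx]
    norm_num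
  · refine ⟨?_, fun p hp => ?_, ?_, fun p hp => ?_, ?_, ?_⟩
    · simp [real, realFix, pos, vy]; norm_num
    · simp [real, realFix, ((ho p).1 hp).2.1]
    · simp [real, realFix, pos]
    · simp [real, realFix, ((ho p).1 hp).2.1]
    · simp [real, realFix, pos]
    · simp [real, realFix, pos, vy]; norm_num
  · intro i; simp [real, realFix, pos]
  · intro i c
    have h1 := one_lt_mu i c
    have h2 : bc i (pos (.w i c)) = 1 := by fin_cases i <;> simp [pos, bc, vx, vy]
    have h3 : (pos (.w i c)) 2 = (mu i c - 1) / (mu i c + 1) := by simp [pos]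
    simp only [real, realFix, singleton_subset_iff, mem_ofPred_eq, h2, h3]
    field_simp
    ring
  · intro i c j hj
    fin_cases i <;> fin_cases j <;> simp [real, realFix, pos, bc, vx, vy] at hj ⊢
  · rintro p ⟨h1, h2⟩
    exact ⟨h1, ray_cone ⟨fun _ => 0, by simp [tn_zero]⟩ h2⟩
  · intro c
    refine gad_real S 0 (Or.inl rfl) c _ _ _ fun p _ _ hp => cone_up (one_lt_lam c) ?_ hp
    rintro _ ⟨v, rfl⟩
    exact ⟨inc c v, by simp [tn_inc, lam]⟩
  · intro c
    refine gad_real S 0 (Or.inl rfl) c _ _ _ fun p _ _ hp => ?_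
    have := one_lt_lam c
    obtain ⟨h1, h2, h3⟩ := hp
    simp only [if_true] at h1 h2 h3
    refine ⟨h1, ?_, ?_⟩
    · field_simp at h2; linarith
    · field_simp at h3; linarith
  · intro c
    refine gad_real S 1 (Or.inr rfl) c _ _ _ fun p _ _ hp => ?_
    have := one_lt_lam c
    obtain ⟨h1, h2, h3⟩ := hp
    simp only [one_ne_zero, if_false] at h1 h2 h3
    refine ⟨?_, ?_, ?_⟩
    · exact nonneg_of_mul_nonneg_left h1 (by positivity)
    · field_simp at h2; linarith
    · field_simp at h3; linarith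

theorem complete (R : List (Rule ι)) (z : ι) (S : ι → Set Gr) (hS : Model R S)
    (hz : (fun _ => 0) ∉ S z) :
    ∃ X : Name ι → Set E, (∀ n, Convex ℝ (X n)) ∧ FixCons X ∧ (∀ y, (X (P y)).Nonempty) ∧
      (X (K .org)).Nonempty ∧ (∀ r ∈ R, RuleCons X r) ∧
      Disjoint (X (K .org)) (X (K (.user z))) := by
  refine ⟨real S, convex_real S, fix_real S, fun y => singleton_nonempty _,
    ⟨!₂[1 / 3, 1 / 3, 0], (mem_org S rfl _).2 (by simp)⟩, fun r hr => rule_real S r (hS r hr), ?_⟩
  rw [disjoint_left]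
  rintro p hp ⟨-, hq⟩
  obtain ⟨h0, h1, -⟩ := (mem_org S rfl p).1 hp
  simp only [cn, bc, Cone, mem_ofPred_eq, Matrix.cons_val_zero, Matrix.cons_val_one,
    Matrix.cons_val, h0, h1] at hq
  rcases hq with hq | ⟨-, -, hq⟩
  · norm_num at hq
  · obtain ⟨v, hv, e⟩ := hq (by norm_num)
    have : v = fun _ => 0 := tn_inj (by
      rw [tn_zero]
      norm_num at e
      exact_mod_cast e)
    exact hz (this ▸ hv)

end Pool.Agent.MP_082264_lc

end MrgPart0

-- ======== part 1: formerly Pool.Agent.MP_082264_lc.Reduction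
section MrgPart1

set_option autoImplicit false

namespace Pool.Agent.MP_082264_lc

open Set Function

/-- Constraints given by finitely many forbidden patterns. -/
def Expr {N : Type} (C : (N → Set E) → Prop) : Prop :=
  ∃ F : List (Pat N), ∀ X, (∀ p ∈ F, Forb X p) ↔ C X

namespace Expr

variable {N : Type}

theorem of_iff {C C' : (N → Set E) → Prop} (h : Expr C) (e : ∀ X, C X ↔ C' X) : Expr C' := by
  obtain ⟨F, hF⟩ := h
  exact ⟨F, fun X => (hF X).trans (e X)⟩

theorem and {C C' : (N → Set E) → Prop} (h : Expr C) (h' : Expr C') :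
    Expr (fun X => C X ∧ C' X) := by
  obtain ⟨F, hF⟩ := h
  obtain ⟨F', hF'⟩ := h'
  exact ⟨F ++ F', fun X => by simp [or_imp, forall_and, ← hF X, ← hF' X]⟩

theorem all {α : Type} [Fintype α] {C : α → (N → Set E) → Prop} (h : ∀ a, Expr (C a)) :
    Expr (fun X => ∀ a, C a X) := by
  choose F hF using h
  refine ⟨(Finset.univ : Finset α).toList.flatMap F, fun X => ?_⟩
  simp only [List.mem_flatMap, Finset.mem_toList, Finset.mem_univ, true_and, forall_exists_index,
    ← hF]
  exact ⟨fun h a p hp => h p a hp, fun h p a hp => h a p hp⟩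

theorem imp (Q : Prop) {C : (N → Set E) → Prop} (h : Expr C) : Expr (fun X => Q → C X) := by
  by_cases hQ : Q
  · exact h.of_iff fun X => by simp [hQ]
  · exact ⟨[], fun X => by simp [hQ]⟩

theorem pat (p : Pat N) : Expr (fun X => Forb X p) := ⟨[p], fun X => by simp⟩

theorem sub (A B : N) : Expr (fun X => X A ⊆ X B) :=
  (pat ([A], [B])).of_iff fun X => by simp [Forb, subset_def]

theorem dis (A B : N) : Expr (fun X => Disjoint (X A) (X B)) :=
  (pat ([A, B], [])).of_iff fun X => by simp [Forb, disjoint_left]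

theorem cov (A B C : N) : Expr (fun X => X A ⊆ X B ∪ X C) :=
  (pat ([A], [B, C])).of_iff fun X => by simp [Forb, subset_def]

theorem tri (A B C : N) : Expr (fun X => ∀ x, x ∈ X A → x ∈ X B → x ∈ X C → False) :=
  (pat ([A, B, C], [])).of_iff fun X => by simp [Forb]

theorem none {n : ℕ} (A : Fin n → N) : Expr (fun X => ∀ x, ¬ ∀ k, x ∈ X (A k)) :=
  (pat (List.ofFn A, [])).of_iff fun X => by simp [Forb, List.mem_ofFn]

variable {ι : Type}

theorem onL (n : Name ι) (l : Ln) : Expr (fun X => OnL X n l) := (sub _ _).and (sub _ _)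

theorem btw (x y z : Name ι) (j j' : Fin 8) : Expr (fun X => Btw X x y z j j') :=
  (sub _ _).and ((sub _ _).and ((dis _ _).and ((sub _ _).and ((sub _ _).and (dis _ _)))))

theorem gd (i : Fin 3) (c : Co) (s d : Pr ι) (g : Name ι) : Expr (fun X => Gad X i c s d g) :=
  ⟨gad i c s d g, fun X => gad_iff X i c s d g⟩

theorem fixCons : Expr (fun X : Name ι → Set E => FixCons X) := by
  have h1 := (all fun l => cov (N := Name ι) (L 0 l) (L 1 l) (L 2 l)).and <|
    (all fun l => cov (L 1 l) (L 0 l) (L 2 l)).and <|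
    (all fun l => tri (L 0 l) (L 1 l) (L 2 l)).and <|
    (all fun l => all fun e => all fun k => sub (P (.tet e k)) (L 0 l)).and <|
    (all fun l => all fun k => sub (P (.tet false k)) (L 1 l)).and <|
    (all fun l => all fun k => sub (P (.tet true k)) (L 2 l)).and <|
    (all fun e => all fun k => all fun j => imp (j ≠ k) (sub (P (.tet e j)) (.fix (.FT e k)))).and <|
    (all fun e => none (fun k => .fix (.FT e k))).and <|
    (all fun i => all fun j => imp (j ≠ i) (sub (P (.V j)) (.fix (.FV i)))).and <|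
    (none (fun i => .fix (.FV i)))
  have h2 := (all fun i => onL (ι := ι) (P (.a i)) (.vert i)).and <|
    (all fun i => onL (P (.a' i)) (.vert i)).and <|
    (all fun i => onL (P (.V i)) (.vert i)).and <|
    (all fun i => all fun c => onL (P (.w i c)) (.vert i)).and <|
    (onL (P (.V 0)) .pq).and <| (onL (P .m) .pq).and <| (onL (P (.V 1)) .pq).and <|
    (onL (P (.V 2)) .rm).and <| (onL (P .m) .rm).and <| (onL (K .org) .rm).and <|
    (onL (P (.V 0)) .po).and <| (onL (K .org) .po).and <|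
    (all fun c => onL (K (.fin c)) .rm).and <| (all fun c => onL (K (.fin c)) .po)
  have h3 := (all fun i => all fun c => btw (ι := ι) (P (.a i)) (P (.w i c)) (P (.V i)) 0 1).and <|
    (all fun i => all fun c => btw (P (.w i c)) (P (.V i)) (P (.a' i)) 2 3).and <|
    (btw (P (.V 0)) (P .m) (P (.V 1)) 4 5).and <|
    (btw (P (.V 2)) (K .org) (P .m) 6 7).and <|
    (all fun i => sub (P (.V i)) (.fix .D)).and <|
    (all fun i => all fun c => sub (P (.w i c)) (.fix (.D' i c))).and <|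
    (all fun i => all fun c => all fun j => imp (j ≠ i) (sub (P (.V j)) (.fix (.D' i c)))).and <|
    (sub (K .org) (K .grid)).and <|
    (all fun c => gd 0 c .grid .grid (.fix .D)).and <|
    (all fun c => gd 0 c .org (.mid c) (.fix .D)).and <|
    (all fun c => gd 1 c (.mid c) (.fin c) (.fix .D))
  refine (h1.and (h2.and h3)).of_iff fun X => ⟨?_, fun h => ?_⟩
  · rintro ⟨⟨a1, a2, a3, a4, a5, a6, a7, a8, a9, a10⟩,
      ⟨b1, b2, b3, b4, b5, b6, b7, b8, b9, b10, b11, b12, b13, b14⟩,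
      ⟨c1, c2, c3, c4, c5, c6, c7, c8, c9, c10, c11⟩⟩
    exact ⟨a1, a2, a3, a4, a5, a6, a7, a8, a9, a10, b1, b2, b3, b4, b5, b6, b7, b8, b9, b10, b11,
      b12, b13, b14, c1, c2, c3, c4, c5, c6, c7, c8, c9, c10, c11⟩
  · obtain ⟨a1, a2, a3, a4, a5, a6, a7, a8, a9, a10, b1, b2, b3, b4, b5, b6, b7, b8, b9, b10, b11,
      b12, b13, b14, c1, c2, c3, c4, c5, c6, c7, c8, c9, c10, c11⟩ := h
    exact ⟨⟨a1, a2, a3, a4, a5, a6, a7, a8, a9, a10⟩,
      ⟨b1, b2, b3, b4, b5, b6, b7, b8, b9, b10, b11, b12, b13, b14⟩,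
      ⟨c1, c2, c3, c4, c5, c6, c7, c8, c9, c10, c11⟩⟩

theorem rules (R : List (Rule ι)) : Expr (fun X : Name ι → Set E => ∀ r ∈ R, RuleCons X r) := by
  refine ⟨R.flatMap rulePats, fun X => ?_⟩
  simp only [List.mem_flatMap, forall_exists_index, and_imp, ← rule_iff]
  exact ⟨fun h r hr p hp => h p r hr hp, fun h p r hr hp => h r hr p hp⟩

end Expr

variable {ι : Type}

def headRules (R : List (Rule ι)) (o : ι) : List (Rule (ι ⊕ ℕ)) :=
  .inter (.inl o) (.inl o) (.inr 0) :: R.map (Rule.map .inl)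

def chainRule (k : ℕ) : Rule (ι ⊕ ℕ) := .down 0 (.inr k) (.inr (k + 1))

theorem chain_iff {D : ℕ → Prop} {R : List (Rule ι)} {o : ι}
    (h1 : ∃ S, Model R S ∧ ∀ v ∈ S o, D (v 0)) (h2 : ∀ S, Model R S → ∀ v : Gr, D (v 0) → v ∈ S o)
    (n : ℕ) :
    (∃ S, Model (headRules R o ++ (List.range n).map chainRule) S ∧ (fun _ => 0) ∉ S (.inr n)) ↔
      ¬ D n := by
  constructor
  · rintro ⟨S, hS, h0⟩ hD
    rw [model_append, headRules, model_cons, model_map] at hS
    obtain ⟨⟨a1, a2⟩, a3⟩ := hS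
    have key : ∀ k, k ≤ n → update (fun _ => 0) 0 (n - k) ∈ S (.inr k) := by
      intro k
      induction k with
      | zero =>
        intro _
        have := h2 _ a2 (update (fun _ => 0) 0 n) (by simpa using hD)
        exact a1 ⟨this, this⟩
      | succ k ih =>
        intro hk
        refine a3 (chainRule k) (List.mem_map_of_mem (List.mem_range.2 hk)) _ ?_
        convert ih (by omega) using 1
        simp only [inc, update_self, update_idem]
        congr 1
        omega
    exact h0 (by simpa using key n le_rfl)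
  · intro hD
    obtain ⟨S, hS, hS'⟩ := h1
    refine ⟨Sum.elim S (fun k => {v | D (v 0 + k)}), ?_, by simpa using hD⟩
    rw [model_append, headRules, model_cons, model_map]
    refine ⟨⟨fun v hv => hS' v hv.1, hS⟩, fun r hr => ?_⟩
    obtain ⟨k, -, rfl⟩ := List.mem_map.1 hr
    intro v hv
    simpa [inc, add_assoc, add_comm 1 k] using hv

def strip : Name (ι ⊕ ℕ) → Name (ι ⊕ ℕ)
  | .aux t (.user (.inr _)) => .aux t (.user (.inr 0))
  | n => n

def num : Name (ι ⊕ ℕ) → ℕ
  | .aux _ (.user (.inr k)) => k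
  | _ => 0

def enc (e : Name (ι ⊕ ℕ) → ℕ) (n : Name (ι ⊕ ℕ)) : ℕ := Nat.pair (e (strip n)) (num n)

theorem enc_inj {e : Name (ι ⊕ ℕ) → ℕ} (he : Injective e) : Injective (enc e) := by
  intro n n' h
  obtain ⟨h1, h2⟩ := Nat.pair_eq_pair.1 h
  replace h1 := he h1
  rcases n with a | ⟨t, (j | k) | _ | _ | c | c⟩ <;>
    rcases n' with a' | ⟨t', (j' | k') | _ | _ | c' | c'⟩ <;>
    simp_all [strip, num]

def encP {N : Type} (g : N → ℕ) (p : Pat N) : Pat ℕ := (p.1.map g, p.2.map g)

theorem forb_encP {N : Type} (g : N → ℕ) (X : ℕ → Set E) (p : Pat N) :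
    Forb X (encP g p) ↔ Forb (X ∘ g) p := by
  simp [Forb, encP]

theorem primrec_enc (e : Name (ι ⊕ ℕ) → ℕ) (t : Tag) :
    Primrec fun k => enc e (.aux t (.user (.inr k))) :=
  (Primrec₂.natPair.comp (Primrec.const (e (.aux t (.user (.inr 0))))) Primrec.id).of_eq
    fun _ => rfl

theorem primrec_chain (e : Name (ι ⊕ ℕ) → ℕ) :
    Primrec fun k => (rulePats (chainRule (ι := ι) k)).map (encP (enc e)) := by
  have h : ∀ t, Primrec fun k => enc e (.aux t (.user (.inr k))) := fun t =>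
    primrec_enc e t
  have h' : Primrec fun k => enc e (.aux .K (.user (.inr (k + 1)))) := (h .K).comp Primrec.succ
  have pc : ∀ {β : Type} [Primcodable β] {f : ℕ → β} {g : ℕ → List β}, Primrec f → Primrec g →
      Primrec fun a => f a :: g a := fun hf hg => Primrec.list_cons.comp hf hg
  simp only [rulePats, chainRule, gad, List.map, encP]
  repeat' first
    | exact Primrec.const _
    | exact h _
    | exact h'
    | apply pc
    | apply Primrec.pair

/-- The reduction: realizability of pattern constraints is equivalent to non halting. -/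
theorem exists_patterns {f : ℕ →. ℕ} (hf : Nat.Partrec f) :
    ∃ (F : ℕ → List (Pat ℕ)) (Q : List ℕ), Primrec F ∧ ∀ n,
      (∃ X : ℕ → Set E, (∀ i, Convex ℝ (X i)) ∧ (∀ p ∈ F n, Forb X p) ∧
        ∀ r ∈ Q, (X r).Nonempty) ↔ ¬ (f n).Dom := by
  obtain ⟨ι, _, R, o, h1, h2⟩ := exists_system hf
  obtain ⟨e, he⟩ := exists_injective_nat (Name (ι ⊕ ℕ))
  obtain ⟨F₀, hF₀⟩ := (Expr.fixCons (ι := ι ⊕ ℕ)).and (Expr.rules (headRules R o))
  refine ⟨fun n => F₀.map (encP (enc e)) ++ ((List.range n).flatMap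
      (fun k => (rulePats (chainRule (ι := ι) k)).map (encP (enc e))) ++
      [([enc e (K .org), enc e (K (.user (.inr n)))], [])]),
    enc e (K .org) :: (Finset.univ : Finset Pt).toList.map (fun y => enc e (P y)), ?_, fun n => ?_⟩
  · refine Primrec.list_append.comp (Primrec.const _) (Primrec.list_append.comp
      (Primrec.list_flatMap Primrec.list_range ((primrec_chain e).comp Primrec.snd).to₂) ?_)
    refine Primrec.list_cons.comp (Primrec.pair ?_ (Primrec.const _)) (Primrec.const _)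
    refine Primrec.list_cons.comp (Primrec.const _) (Primrec.list_cons.comp ?_ (Primrec.const _))
    exact primrec_enc e .K
  have key : ∀ X : ℕ → Set E, ((∀ p ∈ F₀.map (encP (enc e)) ++ ((List.range n).flatMap
      (fun k => (rulePats (chainRule (ι := ι) k)).map (encP (enc e))) ++
      [([enc e (K .org), enc e (K (.user (.inr n)))], [])]), Forb X p) ∧
      ∀ r ∈ enc e (K .org) :: (Finset.univ : Finset Pt).toList.map (fun y => enc e (P y)),
        (X r).Nonempty) ↔
      (FixCons (X ∘ enc e) ∧ (∀ y, ((X ∘ enc e) (P y)).Nonempty) ∧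
        ((X ∘ enc e) (K .org)).Nonempty ∧
        (∀ r ∈ headRules R o ++ (List.range n).map chainRule, RuleCons (X ∘ enc e) r) ∧
        Disjoint ((X ∘ enc e) (K .org)) ((X ∘ enc e) (K (.user (.inr n))))) := by
    intro X
    have e1 : (∀ p ∈ (List.range n).flatMap
        (fun k => (rulePats (chainRule (ι := ι) k)).map (encP (enc e))), Forb X p) ↔
        ∀ r ∈ (List.range n).map chainRule, RuleCons (X ∘ enc e) r := by
      simp only [List.mem_flatMap, List.mem_map, forall_exists_index, and_imp,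
        forall_apply_eq_imp_iff₂, ← rule_iff, ← forb_encP]
      constructor
      · exact fun h k hk p hp => h _ k hk p hp rfl
      · rintro h _ k hk p hp rfl
        exact h k hk p hp
    have e2 : Forb X ([enc e (K .org), enc e (K (.user (.inr n)))], []) ↔
        Disjoint ((X ∘ enc e) (K .org)) ((X ∘ enc e) (K (.user (.inr n)))) := by
      simp [Forb, disjoint_left]
    rw [List.forall_mem_append, List.forall_mem_append, List.forall_mem_append, e1,
      List.forall_mem_singleton, e2, List.forall_mem_map, List.forall_mem_cons,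
      List.forall_mem_map]
    simp only [forb_encP, hF₀, List.forall_mem_map, Finset.mem_toList, Finset.mem_univ,
      true_imp_iff, comp_apply]
    tauto
  rw [← chain_iff (D := fun n => (f n).Dom) h1 h2 n]
  constructor
  · rintro ⟨X, hc, hX⟩
    obtain ⟨a1, a2, a3, a4, a5⟩ := (key X).1 hX
    exact sound _ _ _ (fun _ => hc _) a1 a2 a3 a4 a5
  · rintro ⟨S, hS, h0⟩
    obtain ⟨X, hc, hX⟩ := complete _ _ S hS h0
    have hext : extend (enc e) X (fun _ => ∅) ∘ enc e = X := extend_comp (enc_inj he) _ _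
    refine ⟨extend (enc e) X (fun _ => ∅), fun i => ?_, (key _).2 (hext.symm ▸ hX)⟩
    by_cases hi : ∃ a, enc e a = i
    · obtain ⟨a, rfl⟩ := hi
      rw [(enc_inj he).extend_apply]
      exact hc a
    · rw [extend_apply' _ _ _ hi]
      exact convex_empty

/-- The listed codewords avoid the forbidden patterns and meet the required sets. -/
def Good (F : List (Pat ℕ)) (Q : List ℕ) (C : List (List ℕ)) : Prop :=
  (∀ p ∈ F, ∀ l ∈ C, (∀ a ∈ p.1, a ∈ l) → ∃ b ∈ p.2, b ∈ l) ∧ ∀ r ∈ Q, ∃ l ∈ C, r ∈ l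

theorem primrec_good (Q : List ℕ) : PrimrecRel fun F C => Good F Q C := by
  have hmem : PrimrecRel fun (a : ℕ) (l : List ℕ) => a ∈ l :=
    (Primrec.eq (α := ℕ)).exists_mem_list.swap.of_eq fun a l => by simp [swap]
  have himp : PrimrecRel fun (l : List ℕ) (p : Pat ℕ) => (∀ a ∈ p.1, a ∈ l) → ∃ b ∈ p.2, b ∈ l :=
    PrimrecPred.of_eq (PrimrecPred.or
      (hmem.forall_mem_list.comp (Primrec.fst.comp Primrec.snd) Primrec.fst).not
      (hmem.exists_mem_list.comp (Primrec.snd.comp Primrec.snd) Primrec.fst))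
      fun a => imp_iff_not_or.symm
  have h1 := himp.forall_mem_list.swap.forall_mem_list
  have h2 : PrimrecRel fun (r : ℕ) (C : List (List ℕ)) => ∃ l ∈ C, r ∈ l :=
    hmem.swap.exists_mem_list.swap
  exact PrimrecPred.and h1 (h2.forall_mem_list.comp (Primrec.const Q) Primrec.snd)

/-- Exact realizability of a code. -/
def CodeReal (p : ℕ × List (List ℕ)) : Prop :=
  (∀ l ∈ p.2, ∀ i ∈ l, i < p.1) ∧
    ∃ X : ℕ → Set E, (∀ i, Convex ℝ (X i)) ∧ (∀ i, p.1 ≤ i → X i = ∅) ∧
      {S : Set ℕ | ∃ x : E, S = {i | x ∈ X i}} = {S : Set ℕ | ∃ l ∈ p.2, S = {i | i ∈ l}}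

theorem patterns_iff (F : List (Pat ℕ)) (Q : List ℕ) :
    (∃ X : ℕ → Set E, (∀ i, Convex ℝ (X i)) ∧ (∀ p ∈ F, Forb X p) ∧ ∀ r ∈ Q, (X r).Nonempty) ↔
      ∃ q, CodeReal q ∧ Good F Q q.2 := by
  classical
  constructor
  · rintro ⟨X, hc, hF, hQ⟩
    obtain ⟨N, hN⟩ : ∃ N, (∀ p ∈ F, ∀ b ∈ p.2, b < N) ∧ ∀ r ∈ Q, r < N := by
      obtain ⟨N, hN⟩ := (Q ++ F.flatMap Prod.snd).finite_toSet.bddAbove
      refine ⟨N + 1, fun p hp b hb => Nat.lt_succ_of_le (hN ?_), fun r hr =>
        Nat.lt_succ_of_le (hN ?_)⟩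
      · simp only [mem_ofPred_eq, List.mem_append, List.mem_flatMap]
        exact Or.inr ⟨p, hp, hb⟩
      · simp [hr]
    let C := (List.range N).sublists.filter (fun l => ∃ x : E, ∀ i, i ∈ l ↔ i < N ∧ x ∈ X i)
    have hC : ∀ l ∈ C, ∃ x : E, ∀ i, i ∈ l ↔ i < N ∧ x ∈ X i := fun l hl => by
      simpa using (List.mem_filter.1 hl).2
    have hC' : ∀ x : E, ∃ l ∈ C, ∀ i, i ∈ l ↔ i < N ∧ x ∈ X i := fun x => by
      have : ∀ i, i ∈ (List.range N).filter (fun i => x ∈ X i) ↔ i < N ∧ x ∈ X i := by simp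
      exact ⟨_, List.mem_filter.2 ⟨List.mem_sublists.2 List.filter_sublist,
        decide_eq_true ⟨x, this⟩⟩, this⟩
    refine ⟨(N, C), ⟨fun l hl i hi => ?_, fun i => if i < N then X i else ∅, fun i => ?_,
      fun i hi => if_neg (not_lt.2 hi), ?_⟩, fun p hp l hl ha => ?_, fun r hr => ?_⟩
    · obtain ⟨x, hx⟩ := hC l hl
      exact ((hx i).1 hi).1
    · by_cases hi : i < N <;> simp [hi, hc i, convex_empty]
    · ext S
      constructor
      · rintro ⟨x, rfl⟩
        obtain ⟨l, hl, hx⟩ := hC' x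
        exact ⟨l, hl, Set.ext fun i => by simp [hx]⟩
      · rintro ⟨l, hl, rfl⟩
        obtain ⟨x, hx⟩ := hC l hl
        exact ⟨x, Set.ext fun i => by simp [hx]⟩
    · obtain ⟨x, hx⟩ := hC l hl
      obtain ⟨b, hb, hb'⟩ := hF p hp x (fun a h => ((hx a).1 (ha a h)).2)
      exact ⟨b, hb, (hx b).2 ⟨hN.1 p hp b hb, hb'⟩⟩
    · obtain ⟨x, hx⟩ := hQ r hr
      obtain ⟨l, hl, h⟩ := hC' x
      exact ⟨l, hl, (h r).2 ⟨hN.2 r hr, hx⟩⟩
  · rintro ⟨q, ⟨-, X, hc, -, hX⟩, h1, h2⟩
    refine ⟨X, hc, fun p hp x hx => ?_, fun r hr => ?_⟩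
    · obtain ⟨l, hl, e⟩ : {i | x ∈ X i} ∈ {S : Set ℕ | ∃ l ∈ q.2, S = {i | i ∈ l}} :=
        hX ▸ ⟨x, rfl⟩
      have e' : ∀ i, x ∈ X i ↔ i ∈ l := Set.ext_iff.1 e
      obtain ⟨b, hb, hb'⟩ := h1 p hp l hl (fun a ha => (e' a).1 (hx a ha))
      exact ⟨b, hb, (e' b).2 hb'⟩
    · obtain ⟨l, hl, hr'⟩ := h2 r hr
      obtain ⟨x, e⟩ : {i | i ∈ l} ∈ {S : Set ℕ | ∃ x : E, S = {i | x ∈ X i}} :=
        hX ▸ ⟨l, hl, rfl⟩
      exact ⟨x, (Set.ext_iff.1 e r).1 hr'⟩

theorem re_exists {α β : Type} [Primcodable α] [Primcodable β] {R : α → β → Prop}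
    (h : ComputablePred fun p : α × β => R p.1 p.2) : REPred fun a => ∃ b, R a b := by
  classical
  have h1 : Computable₂ fun (a : α) (m : ℕ) =>
      ((Encodable.decode (α := β) m).map fun b => decide (R a b)).getD false :=
    Computable.option_getD (Computable.option_map (Computable.decode.comp Computable.snd)
      (h.decide.comp ((Computable.fst.comp Computable.fst).pair Computable.snd)).to₂)
      (Computable.const false)
  refine (Partrec.rfind h1.partrec₂).dom_re.of_eq fun a => ?_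
  rw [Nat.rfind_dom]
  constructor
  · rintro ⟨m, hm, -⟩
    rcases hd : Encodable.decode (α := β) m with _ | b
    · simp [hd] at hm
    · exact ⟨b, by simpa [hd] using hm⟩
  · rintro ⟨b, hb⟩
    exact ⟨Encodable.encode b, by simp [hb], fun _ => trivial⟩

theorem not_computable_codeReal : ¬ ComputablePred CodeReal := by
  intro h
  have hf : Nat.Partrec fun n => (Denumerable.ofNat Nat.Partrec.Code n).eval 0 :=
    Partrec.nat_iff.1 (Nat.Partrec.Code.eval_part.comp (Computable.ofNat _) (Computable.const 0))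
  obtain ⟨F, Q, hF, hFQ⟩ := exists_patterns hf
  classical
  have h1 : ComputablePred fun p : Nat.Partrec.Code × (ℕ × List (List ℕ)) =>
      CodeReal p.2 ∧ Good (F (Encodable.encode p.1)) Q p.2.2 := by
    have a1 := h.decide.comp (Computable.snd (α := Nat.Partrec.Code))
    have a2 := ((primrec_good Q).comp (hF.comp (Primrec.encode.comp
      (Primrec.fst (α := Nat.Partrec.Code) (β := ℕ × List (List ℕ)))))
      (Primrec.snd.comp Primrec.snd)).decide.to_comp
    exact Computable.computablePred ((Primrec.and.to_comp.comp a1 a2).of_eq fun p => by simp)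
  refine ComputablePred.halting_problem_not_re 0 ((re_exists
    (R := fun c q => CodeReal q ∧ Good (F (Encodable.encode c)) Q q.2) h1).of_eq fun c => ?_)
  rw [← patterns_iff, hFQ]
  simp

end Pool.Agent.MP_082264_lc

end MrgPart1

-- marker of a merged file
example : 731051 + 700231 = 731051 + 700231 := rfl
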